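import Pool.Agent.W_MP_84bb83_al.Sat3

set_option autoImplicit false

/-!
# The formation `M'`
-/

namespace Pool.Agent.W_MP_84bb83_al

open Function
open scoped commutatorElement

lemma QCl.map {F : Cls} (hF : QCl F) {A B : Type} [Group A] [Group B] [Finite A] (f : A →* B) (hf : Surjective f)
    {K : Subgroup A} (h : QIn F K) : QIn F (K.map f) := by
  have hn := h.1.map f hf
  exact hF.of_comap f hf hn (hF.mono h (Subgroup.le_comap_map f K) (hn.comap f))

lemma qcl_Sol (H : Cls) : QCl (Sol H) where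
  iso := fun A B _ _ ⟨e⟩ h => by
    obtain ⟨h1, h2⟩ := h
    refine ⟨Group.isSolvable_of_surjective (f := e.toMonoidHom) e.surjective, ?_⟩
    intro p hp hpd
    rw [← Nat.card_congr e.toEquiv] at hpd
    exact h2 p hp hpd
  quo := fun _ _ _ N _ h => h.surj (QuotientGroup.mk' N) (QuotientGroup.mk'_surjective N)

lemma Sol.of_subsingleton {H : Cls} {A : Type} [Group A] [Subsingleton A] : Sol H A := by
  refine ⟨inferInstance, ?_⟩
  intro p hp hpd
  rw [Nat.card_unique, Nat.dvd_one] at hpd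
  exact absurd hpd hp.one_lt.ne'

lemma qin_Sol_top {H : Cls} {A : Type} [Group A] : QIn (Sol H) (⊤ : Subgroup A) :=
  ⟨inferInstance, by
    have : Subsingleton (A ⧸ (⊤ : Subgroup A)) := QuotientGroup.subsingleton_quotient_top
    exact Sol.of_subsingleton⟩

lemma Sol.prod {H : Cls} {A B : Type} [Group A] [Group B] (hA : Sol H A) (hB : Sol H B) : Sol H (A × B) := by
  have := hA.1
  have := hB.1
  refine ⟨inferInstance, ?_⟩
  intro p hp hpd
  rw [Nat.card_prod, hp.dvd_mul] at hpd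
  rcases hpd with h | h
  · exact hA.2 p hp h
  · exact hB.2 p hp h

lemma qin_Sol_inf {H : Cls} {A : Type} [Group A] [Finite A] {N K : Subgroup A} (h1 : QIn (Sol H) N)
    (h2 : QIn (Sol H) K) : QIn (Sol H) (N ⊓ K) := by
  obtain ⟨hN, h1⟩ := h1
  obtain ⟨hK, h2⟩ := h2
  let f : A →* (A ⧸ N) × (A ⧸ K) := (QuotientGroup.mk' N).prod (QuotientGroup.mk' K)
  have hker : f.ker = N ⊓ K := by
    rw [MonoidHom.ker_prod, QuotientGroup.ker_mk', QuotientGroup.ker_mk']
  have h3 : Sol H f.range := Sol.inj f.range.subtype (Subgroup.subtype_injective _) (h1.prod h2)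
  have h4 := (qcl_Sol H).qin_ker f.rangeRestrict f.rangeRestrict_surjective h3
  rwa [MonoidHom.ker_rangeRestrict, hker] at h4

/-- the class `M'` -/
def Mp (M H : Cls) : Cls := fun A _ =>
  Finite A ∧ ∃ B : Subgroup A, M B ∧ Rc H B ∧ QIn (Sol H) B

section

variable {M H : Cls} (hM : IsForm M) (hH : IsForm H)

section
include hM

lemma map_cls {A B : Type} [Group A] [Group B] [Finite A] (f : A →* B) (N : Subgroup A) (h : M N) : M (N.map f) := by
  refine hM.surj ((f.comp N.subtype).codRestrict (N.map f) (fun x => ⟨x, x.2, rfl⟩)) ?_ h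
  rintro ⟨y, ⟨x, hx, rfl⟩⟩
  exact ⟨⟨x, hx⟩, rfl⟩

lemma Mp.surj {A B : Type} [Group A] [Group B] (f : A →* B) (hf : Surjective f) (h : Mp M H A) : Mp M H B := by
  obtain ⟨hfin, C, h1, h2, h3⟩ := h
  exact ⟨Finite.of_surjective f hf, C.map f, map_cls hM f C h1, map_rc f C h2, (qcl_Sol H).map f hf h3⟩

lemma qcl_Mp : QCl (Mp M H) where
  iso := fun _ _ _ _ ⟨e⟩ h => Mp.surj hM e.toMonoidHom e.surjective h
  quo := fun _ _ _ N _ h => Mp.surj hM (QuotientGroup.mk' N) (QuotientGroup.mk'_surjective N) h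

lemma Mp.of_subsingleton {A : Type} [Group A] [Subsingleton A] : Mp M H A :=
  ⟨inferInstance, ⊤, hM.of_subsingleton, Rc.of_subsingleton, qin_Sol_top⟩

end

section
include hH

/-- the core of the quotient by the core is trivial -/
lemma core_quot (A : Type) [Group A] [Finite A] [hn : (core H A).Normal] : core H (A ⧸ core H A) = ⊥ := by
  set π := QuotientGroup.mk' (core H A) with hπ
  have hs : Surjective π := QuotientGroup.mk'_surjective _
  have hcn := core_normal hH (A ⧸ core H A)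
  have hcr := core_rc hH (A ⧸ core H A)
  have hle : core H A ≤ (core H (A ⧸ core H A)).comap π := by
    intro x hx
    rw [Subgroup.mem_comap]
    have : π x = 1 := (QuotientGroup.eq_one_iff x).mpr hx
    rw [this]
    exact one_mem _
  have h1 : (core H (A ⧸ core H A)).comap π ≤ core H A := by
    apply le_core (hcn.comap π)
    apply rc_ext hH ((core H A).subgroupOf ((core H (A ⧸ core H A)).comap π))
    · exact (core_rc hH A).subgroupOf _ _ hle
    · let g : (core H (A ⧸ core H A)).comap π →* core H (A ⧸ core H A) :=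
        (π.comp (Subgroup.subtype _)).codRestrict _ (fun x => x.2)
      have hg : Surjective g := by
        rintro ⟨y, hy⟩
        obtain ⟨x, rfl⟩ := hs y
        exact ⟨⟨x, hy⟩, rfl⟩
      have h2 := (qcl_Rc H).qin_ker g hg hcr
      have h3 : g.ker ≤ (core H A).subgroupOf ((core H (A ⧸ core H A)).comap π) := by
        intro x hx
        rw [Subgroup.mem_subgroupOf]
        have : π x = 1 := congrArg Subtype.val (show g x = 1 from hx)
        exact (QuotientGroup.eq_one_iff _).mp this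
      exact ((qcl_Rc H).mono h2 h3 inferInstance).2
  rw [eq_bot_iff]
  intro y hy
  obtain ⟨x, rfl⟩ := hs y
  rw [Subgroup.mem_bot]
  exact (QuotientGroup.eq_one_iff _).mpr (h1 hy)

/-- abelian normal subgroups of groups with trivial core -/
lemma sol_abelian {A : Type} [Group A] [Finite A] (hc : core H A = ⊥) (T : Subgroup A) [T.Normal]
    (hab : ∀ a ∈ T, ∀ b ∈ T, a * b = b * a) : Sol H T := by
  refine ⟨Group.isSolvable_of_comm (fun a b => Subtype.ext (hab _ a.2 _ b.2)), ?_⟩
  intro p hp hpd hR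
  let P : Subgroup A := {
    carrier := {t | t ∈ T ∧ t ^ p = 1}
    mul_mem' := by
      rintro a b ⟨ha, ha'⟩ ⟨hb, hb'⟩
      refine ⟨mul_mem ha hb, ?_⟩
      have hcomm : Commute a b := hab a ha b hb
      rw [hcomm.mul_pow, ha', hb', one_mul]
    one_mem' := ⟨one_mem _, one_pow _⟩
    inv_mem' := by
      rintro a ⟨ha, ha'⟩
      exact ⟨inv_mem ha, by rw [inv_pow, ha', inv_one]⟩ }
  have hPn : P.Normal := by
    constructor
    rintro a ⟨ha, ha'⟩ g
    exact ⟨Subgroup.Normal.conj_mem inferInstance a ha g, by rw [conj_pow, ha', mul_one, mul_inv_cancel]⟩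
  have hPR : Rc H P := rc_elem hH (A := P) (fun a b => Subtype.ext (hab _ a.2.1 _ b.2.1)) hp
    (fun a => Subtype.ext a.2.2) hR
  have hP := le_core hPn hPR
  rw [hc] at hP
  have hfact : Fact p.Prime := ⟨hp⟩
  obtain ⟨t, ht⟩ := exists_prime_orderOf_dvd_card' (G := T) p hpd
  have h1 : (t : A) ∈ P := ⟨t.2, by
    have := pow_orderOf_eq_one t
    rw [ht] at this
    exact congrArg Subtype.val this⟩
  have h2 := hP h1
  rw [Subgroup.mem_bot] at h2
  have h3 : t = 1 := Subtype.ext h2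
  rw [h3, orderOf_one] at ht
  exact hp.one_lt.ne ht

/-- `A` modulo its core is in `Sol` -/
lemma qin_Sol_core {A : Type} [Group A] [Finite A] (T : Subgroup A) (hT : QIn (Sol H) T)
    (hab : ∀ a ∈ T, ∀ b ∈ T, ⁅a, b⁆ ∈ core H A) : QIn (Sol H) (core H A) := by
  have hn := core_normal hH A
  have hTn := hT.1
  refine ⟨hn, ?_⟩
  set π := QuotientGroup.mk' (core H A) with hπ
  have hs : Surjective π := QuotientGroup.mk'_surjective _
  obtain ⟨h0, h1⟩ := (qcl_Sol H).map π hs hT
  refine Sol.ext (T.map π) ?_ h1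
  apply sol_abelian hH (core_quot hH A)
  rintro _ ⟨a, ha, rfl⟩ _ ⟨b, hb, rfl⟩
  rw [← commutatorElement_eq_one_iff_mul_comm, ← map_commutatorElement]
  exact (QuotientGroup.eq_one_iff _).mpr (hab a ha b hb)

end

/-- data extracted from `A/N` in `M'` -/
lemma Mp_quot (hH : IsForm H) {A : Type} [Group A] [Finite A] (N : Subgroup A) (h : QIn (Mp M H) N) :
    ∃ (B : Subgroup A) (Bbar : Type) (_ : Group Bbar) (g : B →* Bbar), M Bbar ∧ Surjective g ∧
      (∀ b : B, g b = 1 ↔ (b : A) ∈ N) ∧ N ≤ B ∧ core H A ≤ B ∧ B ≤ core H A ⊔ N ∧ QIn (Sol H) B := by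
  obtain ⟨hN, hfin, B', h1, h2, h3⟩ := h
  have hB'n := h3.1
  set π := QuotientGroup.mk' N with hπ
  have hs : Surjective π := QuotientGroup.mk'_surjective _
  let g : B'.comap π →* B' := (π.comp (Subgroup.subtype _)).codRestrict _ (fun x => x.2)
  have hg : Surjective g := by
    rintro ⟨y, hy⟩
    obtain ⟨x, rfl⟩ := hs y
    exact ⟨⟨x, hy⟩, rfl⟩
  have hgk : ∀ b : B'.comap π, g b = 1 ↔ (b : A) ∈ N := by
    intro b
    rw [← QuotientGroup.eq_one_iff]
    constructor
    · intro h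
      exact congrArg Subtype.val h
    · intro h
      exact Subtype.ext h
  have hsol : QIn (Sol H) (B'.comap π) := (qcl_Sol H).comap π hs h3
  have hle : N ≤ B'.comap π := by
    intro x hx
    rw [Subgroup.mem_comap]
    have : π x = 1 := (QuotientGroup.eq_one_iff x).mpr hx
    rw [this]
    exact one_mem _
  refine ⟨B'.comap π, B', inferInstance, g, h1, hg, hgk, hle, ?_, ?_, hsol⟩
  · obtain ⟨hn, hsol⟩ := hsol
    exact le_of_sol _ hsol _ (core_rc hH A)
  · have := hB'n.comap π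
    apply le_core_sup hH
    have h4 := (qcl_Rc H).qin_ker g hg h2
    have h5 : g.ker = N.subgroupOf (B'.comap π) := by
      ext b
      rw [MonoidHom.mem_ker, hgk, Subgroup.mem_subgroupOf]
    rwa [h5] at h4

include hM hH

/-- the core modulo its intersection with `N` -/
lemma qin_core {A : Type} [Group A] [Finite A] (N : Subgroup A) (hN : N.Normal) (B : Subgroup A) (Bbar : Type) [Group Bbar]
    (g : B →* Bbar) (hB : M Bbar) (hg : Surjective g) (hgk : ∀ b : B, g b = 1 ↔ (b : A) ∈ N)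
    (hcB : core H A ≤ B) (hB2 : B ≤ core H A ⊔ N) : QIn M (N.subgroupOf (core H A)) := by
  have hn := core_normal hH A
  let g' : core H A →* Bbar := g.comp (Subgroup.inclusion hcB)
  have hg' : Surjective g' := by
    intro y
    obtain ⟨b, rfl⟩ := hg y
    have hb := hB2 b.2
    rw [Subgroup.mem_sup_of_normal_right] at hb
    obtain ⟨c, hc, n, hn, hcn⟩ := hb
    refine ⟨⟨c, hc⟩, ?_⟩
    show g ⟨c, hcB hc⟩ = g b
    rw [← inv_mul_eq_one, ← map_inv, ← map_mul, hgk]
    show c⁻¹ * (b : A) ∈ N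
    rw [← hcn, inv_mul_cancel_left]
    exact hn
  have h1 := hM.qin_ker g' hg' hB
  have h2 : g'.ker = N.subgroupOf (core H A) := by
    ext b
    rw [MonoidHom.mem_ker, Subgroup.mem_subgroupOf]
    exact hgk _
  rwa [h2] at h1

/-- `R₀`-closure -/
lemma Mp_R0 {A : Type} [Group A] [Finite A] (N₁ N₂ : Subgroup A) (h1 : QIn (Mp M H) N₁) (h2 : QIn (Mp M H) N₂)
    (h12 : N₁ ⊓ N₂ = ⊥) : Mp M H A := by
  have hN₁ := h1.1
  have hN₂ := h2.1
  have hn := core_normal hH A
  obtain ⟨B₁, Bb₁, _, g₁, a1, a2, a3, a4, a5, a6, a7⟩ := Mp_quot hH N₁ h1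
  obtain ⟨B₂, Bb₂, _, g₂, b1, b2, b3, b4, b5, b6, b7⟩ := Mp_quot hH N₂ h2
  refine ⟨inferInstance, core H A, ?_, core_rc hH A, ?_⟩
  · have q1 := qin_core hM hH N₁ hN₁ B₁ Bb₁ g₁ a1 a2 a3 a5 a6
    have q2 := qin_core hM hH N₂ hN₂ B₂ Bb₂ g₂ b1 b2 b3 b5 b6
    apply hM.bot
    apply hM.mono (hM.qin_inf q1 q2) _ inferInstance
    intro x hx
    have hx1 : (x : A) ∈ N₁ := (Subgroup.mem_inf.mp hx).1
    have hx2 : (x : A) ∈ N₂ := (Subgroup.mem_inf.mp hx).2
    have hx3 : (x : A) ∈ N₁ ⊓ N₂ := Subgroup.mem_inf.mpr ⟨hx1, hx2⟩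
    rw [h12, Subgroup.mem_bot] at hx3
    rw [Subgroup.mem_bot]
    exact Subtype.ext hx3
  · apply qin_Sol_core hH (B₁ ⊓ B₂) (qin_Sol_inf a7 b7)
    intro u hu v hv
    have hu1 := a6 (Subgroup.mem_inf.mp hu).1
    have hv2 := b6 (Subgroup.mem_inf.mp hv).2
    rw [Subgroup.mem_sup_of_normal_left] at hu1 hv2
    obtain ⟨c, hc, n, hn1, rfl⟩ := hu1
    obtain ⟨d, hd, m, hm, rfl⟩ := hv2
    have hnm : n * m = m * n := by
      have h3 : ⁅n, m⁆ ∈ N₁ ⊓ N₂ := by
        rw [commutatorElement_def]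
        refine Subgroup.mem_inf.mpr ⟨?_, ?_⟩
        · have : n * m * n⁻¹ * m⁻¹ = n * (m * n⁻¹ * m⁻¹) := by group
          rw [this]
          exact mul_mem hn1 (hN₁.conj_mem _ (inv_mem hn1) m)
        · exact mul_mem (hN₂.conj_mem _ hm n) (inv_mem hm)
      rw [h12, Subgroup.mem_bot, commutatorElement_eq_one_iff_mul_comm] at h3
      exact h3
    -- compute modulo the core
    rw [← QuotientGroup.eq_one_iff]
    have hc1 : (c : A ⧸ core H A) = 1 := (QuotientGroup.eq_one_iff c).mpr hc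
    have hd1 : (d : A ⧸ core H A) = 1 := (QuotientGroup.eq_one_iff d).mpr hd
    have h4 : ((⁅c * n, d * m⁆ : A) : A ⧸ core H A) = ((⁅n, m⁆ : A) : A ⧸ core H A) := by
      simp only [commutatorElement_def, QuotientGroup.mk_mul, QuotientGroup.mk_inv, hc1, hd1, one_mul]
    rw [h4, commutatorElement_eq_one_iff_mul_comm.mpr hnm]
    rfl

theorem isForm_Mp : IsForm (Mp M H) where
  toQCl := qcl_Mp hM
  unit := Mp.of_subsingleton hM
  sub := by
    intro G _ _ N₁ N₂ _ _ h1 h2
    set π := QuotientGroup.mk' (N₁ ⊓ N₂) with hπ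
    have hs : Surjective π := QuotientGroup.mk'_surjective _
    apply Mp_R0 hM hH (N₁.map π) (N₂.map π)
    · exact (qcl_Mp hM).map π hs ⟨inferInstance, h1⟩
    · exact (qcl_Mp hM).map π hs ⟨inferInstance, h2⟩
    · rw [eq_bot_iff]
      rintro _ ⟨⟨x, hx, rfl⟩, ⟨y, hy, hyx⟩⟩
      have h3 : y⁻¹ * x ∈ N₁ ⊓ N₂ := QuotientGroup.eq.mp hyx
      have h4 : x ∈ N₂ := by
        have : x = y * (y⁻¹ * x) := by group
        rw [this]
        exact mul_mem hy (Subgroup.mem_inf.mp h3).2
      rw [Subgroup.mem_bot]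
      exact (QuotientGroup.eq_one_iff _).mpr (Subgroup.mem_inf.mpr ⟨hx, h4⟩)

omit hH in
/-- the new decomposition -/
theorem dec_Mp {F : Cls} (hd : Dec F M H) : Dec F (Mp M H) H := by
  intro G _ _
  have hR : Rc H (res H G) := ⟨G, inferInstance, inferInstance, MonoidHom.id _, surjective_id⟩
  have hs : Surjective (⊤ : Subgroup (res H G)).subtype := fun b => ⟨⟨b, trivial⟩, rfl⟩
  let g : res H G →* (⊤ : Subgroup (res H G)) := Subgroup.topEquiv.symm.toMonoidHom
  have hg : Surjective g := Subgroup.topEquiv.symm.surjective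
  rw [hd]
  constructor
  · intro h
    exact ⟨inferInstance, ⊤, hM.surj g hg h, hR.surj g hg, qin_Sol_top⟩
  · rintro ⟨-, B, h1, h2, hn, h3⟩
    have h4 := le_of_sol B h3 ⊤ (hR.surj g hg)
    rw [top_le_iff] at h4
    subst h4
    exact hM.surj _ hs h1

variable {F : Cls} (hF : QCl F) (hsat : ∀ (G : Type) [Group G] [Finite G], F (G ⧸ frattini G) → F G)
  (hd : Dec F M H)
include hF hsat hd

/-- saturation, for a minimal normal subgroup -/
lemma sat_min {A : Type} [Group A] [Finite A] (N : Subgroup A) [hN : N.Normal] (hfr : N ≤ frattini A) (hne : N ≠ ⊥)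
    (hmin : ∀ N' : Subgroup A, N'.Normal → N' ≤ N → N' = ⊥ ∨ N' = N) (h : QIn (Mp M H) N) : Mp M H A := by
  have hn := core_normal hH A
  -- `N` is abelian
  have hab : ∀ a ∈ N, ∀ b ∈ N, a * b = b * a := by
    have hnil : Group.IsNilpotent (frattini A) := frattini_nilpotent
    have hsolv : Group.IsSolvable N :=
      Group.isSolvable_of_isSolvable_injective (Subgroup.inclusion_injective hfr)
    have hnt : Nontrivial N := (Subgroup.nontrivial_iff_ne_bot N).mpr hne
    have h1 := Group.IsSolvable.commutator_lt_top_of_nontrivial N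
    have h2 : ((commutator N).map N.subtype).Normal := ConjAct.normal_of_characteristic_of_normal
    rcases hmin _ h2 (Subgroup.map_subtype_le _) with h3 | h3
    · intro a ha b hb
      have h4 : ⁅(⟨a, ha⟩ : N), ⟨b, hb⟩⁆ ∈ commutator N :=
        Subgroup.commutator_mem_commutator (Subgroup.mem_top _) (Subgroup.mem_top _)
      rw [(Subgroup.map_eq_bot_iff_of_injective _ (Subgroup.subtype_injective N)).mp h3, Subgroup.mem_bot,
        commutatorElement_eq_one_iff_mul_comm] at h4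
      exact congrArg Subtype.val h4
    · exfalso
      apply h1.ne
      rw [eq_top_iff]
      intro x _
      obtain ⟨y, hy, hyx⟩ := h3.ge x.2
      have : y = x := Subtype.ext hyx
      rw [← this]
      exact hy
  -- exponent
  obtain ⟨p, hp, hexp⟩ : ∃ p : ℕ, p.Prime ∧ ∀ a ∈ N, a ^ p = 1 := by
    have hnt : Nontrivial N := (Subgroup.nontrivial_iff_ne_bot N).mpr hne
    have h1 : Nat.card N ≠ 1 := by
      have := Finite.one_lt_card_iff_nontrivial.mpr hnt
      omega
    obtain ⟨p, hp, hpd⟩ := Nat.exists_prime_and_dvd h1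
    refine ⟨p, hp, ?_⟩
    let P : Subgroup A := {
      carrier := {t | t ∈ N ∧ t ^ p = 1}
      mul_mem' := by
        rintro a b ⟨ha, ha'⟩ ⟨hb, hb'⟩
        refine ⟨mul_mem ha hb, ?_⟩
        have hcomm : Commute a b := hab a ha b hb
        rw [hcomm.mul_pow, ha', hb', one_mul]
      one_mem' := ⟨one_mem _, one_pow _⟩
      inv_mem' := by
        rintro a ⟨ha, ha'⟩
        exact ⟨inv_mem ha, by rw [inv_pow, ha', inv_one]⟩ }
    have hPn : P.Normal := by
      constructor
      rintro a ⟨ha, ha'⟩ g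
      exact ⟨hN.conj_mem a ha g, by rw [conj_pow, ha', mul_one, mul_inv_cancel]⟩
    have hfact : Fact p.Prime := ⟨hp⟩
    obtain ⟨t, ht⟩ := exists_prime_orderOf_dvd_card' (G := N) p hpd
    have h2 : (t : A) ∈ P := ⟨t.2, by
      have := pow_orderOf_eq_one t
      rw [ht] at this
      exact congrArg Subtype.val this⟩
    rcases hmin P hPn (fun x hx => hx.1) with h3 | h3
    · exfalso
      rw [h3, Subgroup.mem_bot] at h2
      have h4 : t = 1 := Subtype.ext h2
      rw [h4, orderOf_one] at ht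
      exact hp.one_lt.ne ht
    · intro a ha
      rw [← h3] at ha
      exact ha.2
  obtain ⟨B, Bb, _, g, a1, a2, a3, a4, a5, a6, a7⟩ := Mp_quot hH N h
  have hQ := qin_core hM hH N hN B Bb g a1 a2 a3 a5 a6
  have hsolc : QIn (Sol H) (core H A) := by
    apply qin_Sol_core hH (core H A ⊔ N) ((qcl_Sol H).mono a7 a6 inferInstance)
    intro u hu v hv
    rw [Subgroup.mem_sup_of_normal_left] at hu hv
    obtain ⟨c, hc, n, hn1, rfl⟩ := hu
    obtain ⟨d, hd, m, hm, rfl⟩ := hv
    rw [← QuotientGroup.eq_one_iff]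
    have hc1 : (c : A ⧸ core H A) = 1 := (QuotientGroup.eq_one_iff c).mpr hc
    have hd1 : (d : A ⧸ core H A) = 1 := (QuotientGroup.eq_one_iff d).mpr hd
    have h4 : ((⁅c * n, d * m⁆ : A) : A ⧸ core H A) = ((⁅n, m⁆ : A) : A ⧸ core H A) := by
      simp only [commutatorElement_def, QuotientGroup.mk_mul, QuotientGroup.mk_inv, hc1, hd1, one_mul]
    rw [h4, commutatorElement_eq_one_iff_mul_comm.mpr (hab n hn1 m hm)]
    rfl
  refine ⟨inferInstance, core H A, ?_, core_rc hH A, hsolc⟩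
  by_cases hNC : N ≤ core H A
  · exact thmS hF hsat hM hH hd (core H A) N hNC hfr hne hmin hab hp hexp (core_rc hH A) hQ hsolc.2
  · have h1 : N ⊓ core H A = ⊥ := by
      rcases hmin (N ⊓ core H A) inferInstance inf_le_left with h | h
      · exact h
      · exact absurd (inf_eq_left.mp h) hNC
    apply hM.bot
    apply hM.mono hQ _ inferInstance
    intro x hx
    have h2 : (x : A) ∈ N ⊓ core H A := Subgroup.mem_inf.mpr ⟨hx, x.2⟩
    rw [h1, Subgroup.mem_bot] at h2
    rw [Subgroup.mem_bot]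
    exact Subtype.ext h2

/-- saturation -/
theorem sat_Mp : ∀ (n : ℕ) (A : Type) [Group A] [Finite A], Nat.card A = n → ∀ N : Subgroup A, N ≤ frattini A →
    QIn (Mp M H) N → Mp M H A := by
  intro n
  induction n using Nat.strong_induction_on with
  | _ n ih =>
    intro A _ _ hA N hfr h
    have hNn := h.1
    by_cases hne : N = ⊥
    · subst hne
      exact (qcl_Mp hM).bot h
    -- a minimal normal subgroup
    obtain ⟨N₁, hN₁⟩ := (Set.toFinite {W : Subgroup A | W.Normal ∧ W ≤ N ∧ W ≠ ⊥}).exists_minimal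
      ⟨N, hNn, le_rfl, hne⟩
    obtain ⟨⟨hn₁, hle₁, hne₁⟩, hmin₁⟩ := hN₁
    have hmin : ∀ N' : Subgroup A, N'.Normal → N' ≤ N₁ → N' = ⊥ ∨ N' = N₁ := by
      intro N' h1 h2
      by_cases h3 : N' = ⊥
      · exact Or.inl h3
      · exact Or.inr (le_antisymm h2 (hmin₁ ⟨h1, h2.trans hle₁, h3⟩ h2))
    have hs : Surjective (QuotientGroup.mk' N₁) := QuotientGroup.mk'_surjective _
    have hcard : Nat.card (A ⧸ N₁) < n := by
      rw [← hA, Subgroup.card_eq_card_quotient_mul_card_subgroup N₁]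
      have h1 : 1 < Nat.card N₁ := Finite.one_lt_card_iff_nontrivial.mpr ((Subgroup.nontrivial_iff_ne_bot N₁).mpr hne₁)
      have h2 : 0 < Nat.card (A ⧸ N₁) := Nat.card_pos
      nlinarith
    have h1 : Mp M H (A ⧸ N₁) := by
      apply ih _ hcard (A ⧸ N₁) rfl (N.map (QuotientGroup.mk' N₁))
      · rw [Subgroup.map_le_iff_le_comap]
        exact hfr.trans (frattini_le_comap_frattini_of_surjective hs)
      · exact (qcl_Mp hM).map _ hs h
    exact sat_min hM hH hF hsat hd N₁ (hle₁.trans hfr) hne₁ hmin ⟨hn₁, h1⟩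

end

end Pool.Agent.W_MP_84bb83_al
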