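import Mathlib

set_option autoImplicit false

/-!
# Basic facts on formations of finite groups
-/

namespace Pool.Agent.W_MP_84bb83_al

open Function

/-- a class of groups -/
abbrev Cls := (G : Type) → [Group G] → Prop

/-- the class is closed under isomorphisms and under quotients (of finite groups) -/
structure QCl (F : Cls) : Prop where
  iso : ∀ (A B : Type) [Group A] [Group B], Nonempty (A ≃* B) → F A → F B
  quo : ∀ (G : Type) [Group G] [Finite G] (N : Subgroup G) [N.Normal], F G → F (G ⧸ N)

/-- formations of finite groups -/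
structure IsForm (F : Cls) : Prop extends QCl F where
  unit : F Unit
  sub : ∀ (G : Type) [Group G] [Finite G] (N₁ N₂ : Subgroup G) [N₁.Normal] [N₂.Normal],
          F (G ⧸ N₁) → F (G ⧸ N₂) → F (G ⧸ (N₁ ⊓ N₂))

/-- the quotient by `N` is in `F` -/
def QIn (F : Cls) {G : Type} [Group G] (N : Subgroup G) : Prop := ∃ _ : N.Normal, F (G ⧸ N)

section QCl

variable {F : Cls} (hF : QCl F)
include hF

lemma QCl.surj {A B : Type} [Group A] [Group B] [Finite A] (f : A →* B) (hf : Surjective f) (h : F A) : F B :=
  hF.iso _ _ ⟨QuotientGroup.quotientKerEquivOfSurjective f hf⟩ (hF.quo A f.ker h)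

lemma QCl.of_le_ker {A B : Type} [Group A] [Group B] [Finite A] {N : Subgroup A} (h : QIn F N)
    (f : A →* B) (hf : Surjective f) (hN : N ≤ f.ker) : F B := by
  obtain ⟨hn, h⟩ := h
  refine hF.surj (QuotientGroup.lift N f hN) ?_ h
  exact QuotientGroup.lift_surjective_of_surjective N f hf hN

lemma QCl.qin_ker {A B : Type} [Group A] [Group B] (f : A →* B) (hf : Surjective f) (h : F B) :
    QIn F f.ker :=
  ⟨inferInstance, hF.iso _ _ ⟨(QuotientGroup.quotientKerEquivOfSurjective f hf).symm⟩ h⟩

lemma QCl.mono {A : Type} [Group A] [Finite A] {N K : Subgroup A} (h : QIn F N) (hNK : N ≤ K) (hK : K.Normal) :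
    QIn F K := by
  refine ⟨hK, ?_⟩
  refine hF.of_le_ker h (QuotientGroup.mk' K) (QuotientGroup.mk'_surjective K) ?_
  rw [QuotientGroup.ker_mk']
  exact hNK

lemma QCl.bot {A : Type} [Group A] [Finite A] (h : QIn F (⊥ : Subgroup A)) : F A :=
  hF.of_le_ker h (MonoidHom.id A) surjective_id bot_le

lemma QCl.qin_bot {A : Type} [Group A] [Finite A] (h : F A) : QIn F (⊥ : Subgroup A) := by
  have := hF.qin_ker (MonoidHom.id A) surjective_id h
  simpa using this

lemma QCl.comap {A B : Type} [Group A] [Group B] [Finite A] (f : A →* B) (hf : Surjective f) {K : Subgroup B}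
    (h : QIn F K) : QIn F (K.comap f) := by
  obtain ⟨hn, h⟩ := h
  have := hF.qin_ker ((QuotientGroup.mk' K).comp f) ((QuotientGroup.mk'_surjective K).comp hf) h
  rwa [← MonoidHom.comap_ker, QuotientGroup.ker_mk'] at this

lemma QCl.of_comap {A B : Type} [Group A] [Group B] [Finite A] (f : A →* B) (hf : Surjective f) {K : Subgroup B}
    (hK : K.Normal) (h : QIn F (K.comap f)) : QIn F K := by
  refine ⟨hK, hF.of_le_ker h ((QuotientGroup.mk' K).comp f) ((QuotientGroup.mk'_surjective K).comp hf) ?_⟩
  rw [← MonoidHom.comap_ker, QuotientGroup.ker_mk']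

end QCl

section IsForm

variable {F : Cls} (hF : IsForm F)
include hF

lemma IsForm.of_subsingleton {A : Type} [Group A] [Subsingleton A] : F A := by
  have : Unique A := ⟨⟨1⟩, fun _ => Subsingleton.elim _ _⟩
  exact hF.iso Unit A ⟨MulEquiv.ofUnique⟩ hF.unit

lemma IsForm.qin_top {A : Type} [Group A] : QIn F (⊤ : Subgroup A) :=
  ⟨inferInstance, by
    have : Subsingleton (A ⧸ (⊤ : Subgroup A)) := QuotientGroup.subsingleton_quotient_top
    exact hF.of_subsingleton⟩

lemma IsForm.qin_inf {A : Type} [Group A] [Finite A] {N K : Subgroup A} (h : QIn F N) (h' : QIn F K) :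
    QIn F (N ⊓ K) := by
  obtain ⟨hn, h⟩ := h
  obtain ⟨hn', h'⟩ := h'
  exact ⟨inferInstance, hF.sub A N K h h'⟩

end IsForm

/-- the residual -/
noncomputable def res (F : Cls) (G : Type) [Group G] : Subgroup G := sInf {N | QIn F N}

lemma res_le {F : Cls} {G : Type} [Group G] {N : Subgroup G} (h : QIn F N) : res F G ≤ N := sInf_le h

section res

variable {F : Cls} (hF : IsForm F)
include hF

lemma IsForm.qin_res (G : Type) [Group G] [Finite G] : QIn F (res F G) := by
  -- take a minimal element
  have hne : ({N : Subgroup G | QIn F N}).Nonempty := ⟨⊤, hF.qin_top⟩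
  obtain ⟨N, hN⟩ := (Set.toFinite {N : Subgroup G | QIn F N}).exists_minimal hne
  have : res F G = N := by
    apply le_antisymm (res_le hN.1)
    apply le_sInf
    intro K hK
    have h1 : QIn F (N ⊓ K) := hF.qin_inf hN.1 hK
    have h2 := hN.2 h1 inf_le_left
    exact h2.trans inf_le_right
  rw [this]
  exact hN.1

lemma IsForm.res_normal (G : Type) [Group G] [Finite G] : (res F G).Normal := (hF.qin_res G).1

lemma IsForm.res_map {G G' : Type} [Group G] [Group G'] [Finite G] (f : G →* G') (hf : Surjective f) :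
    (res F G).map f = res F G' := by
  have : Finite G' := Finite.of_surjective f hf
  have hn := hF.res_normal G
  apply le_antisymm
  · rw [Subgroup.map_le_iff_le_comap]
    exact res_le (hF.comap f hf (hF.qin_res G'))
  · apply res_le
    apply hF.of_comap f hf (hn.map f hf)
    apply hF.mono (hF.qin_res G) (Subgroup.le_comap_map f _)
    exact (hn.map f hf).comap f

lemma IsForm.qin_iff (G : Type) [Group G] [Finite G] {N : Subgroup G} (hN : N.Normal) :
    QIn F N ↔ res F G ≤ N := ⟨res_le, fun h => hF.mono (hF.qin_res G) h hN⟩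

/-- finite families -/
lemma IsForm.of_family {G : Type} [Group G] [Finite G] {ι : Sort*} (N : ι → Subgroup G)
    (h : ∀ i, QIn F (N i)) {K : Subgroup G} (hK : K.Normal) (hle : ⨅ i, N i ≤ K) : QIn F K := by
  rw [hF.qin_iff G hK]
  exact (le_iInf (fun i => res_le (h i))).trans hle

lemma IsForm.prod {A B : Type} [Group A] [Group B] [Finite A] [Finite B] (hA : F A) (hB : F B) : F (A × B) := by
  apply hF.bot
  have h1 := hF.qin_ker (MonoidHom.fst A B) Prod.fst_surjective hA
  have h2 := hF.qin_ker (MonoidHom.snd A B) Prod.snd_surjective hB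
  apply hF.mono (hF.qin_inf h1 h2) _ inferInstance
  rintro ⟨a, b⟩ ⟨ha, hb⟩
  have ha' : a = 1 := ha
  have hb' : b = 1 := hb
  simp [Subgroup.mem_bot, ha', hb']

lemma IsForm.res_eq_bot {G : Type} [Group G] [Finite G] : res F G = ⊥ ↔ F G := by
  constructor
  · intro h
    have := hF.qin_res G
    rw [h] at this
    exact hF.bot this
  · intro h
    exact le_bot_iff.mp (res_le (hF.qin_bot h))

/-- residual of a direct product with a factor in `F` -/
lemma IsForm.res_prod {A B : Type} [Group A] [Group B] [Finite A] [Finite B] (hB : F B) :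
    res F (A × B) = (res F A).prod ⊥ := by
  have h1 := hF.res_map (MonoidHom.fst A B) Prod.fst_surjective
  have h2 := hF.res_map (MonoidHom.snd A B) Prod.snd_surjective
  rw [hF.res_eq_bot.mpr hB] at h2
  have h3 : ∀ x ∈ res F (A × B), x.2 = 1 := by
    intro x hx
    have : x.2 ∈ (res F (A × B)).map (MonoidHom.snd A B) := ⟨x, hx, rfl⟩
    rwa [h2, Subgroup.mem_bot] at this
  apply le_antisymm
  · intro x hx
    rw [Subgroup.mem_prod]
    refine ⟨?_, by rw [Subgroup.mem_bot]; exact h3 x hx⟩
    rw [← h1]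
    exact ⟨x, hx, rfl⟩
  · rintro ⟨a, b⟩ hx
    rw [Subgroup.mem_prod] at hx
    obtain ⟨ha, hb⟩ := hx
    rw [Subgroup.mem_bot] at hb
    simp only at ha hb
    rw [← h1] at ha
    obtain ⟨y, hy, hya⟩ := ha
    have hya' : y.1 = a := hya
    have : y = (a, b) := by
      ext
      · exact hya'
      · rw [h3 y hy, hb]
    rw [← this]
    exact hy

lemma IsForm.map_mem_res {G G' : Type} [Group G] [Group G'] [Finite G] (f : G →* G') (hf : Surjective f) {x : G}
    (hx : x ∈ res F G) : f x ∈ res F G' := by
  rw [← hF.res_map f hf]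
  exact ⟨x, hx, rfl⟩

lemma IsForm.lift_mem_res {G G' : Type} [Group G] [Group G'] [Finite G] (f : G →* G') (hf : Surjective f) {x : G'}
    (hx : x ∈ res F G') : ∃ z ∈ res F G, f z = x := by
  rw [← hF.res_map f hf] at hx
  exact hx

/-- the residual is invariant under automorphisms -/
lemma IsForm.res_auto {G : Type} [Group G] [Finite G] (f : G →* G) (hf : Surjective f) {x : G}
    (hx : x ∈ res F G) : f x ∈ res F G := by
  rw [← hF.res_map f hf]
  exact ⟨x, hx, rfl⟩

end res

/-- factor a surjection through a surjection -/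
lemma exists_factor {A B C : Type} [Group A] [Group B] [Group C] (g : A →* B) (hg : Surjective g)
    (h : A →* C) (hle : g.ker ≤ h.ker) : ∃ k : B →* C, (∀ a, k (g a) = h a) := by
  refine ⟨(MonoidHom.liftOfSurjective g hg) ⟨h, hle⟩, ?_⟩
  intro a
  exact MonoidHom.liftOfRightInverse_comp_apply _ _ _ ⟨h, hle⟩ a

end Pool.Agent.W_MP_84bb83_al
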