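import Pool.Agent.W_MP_84bb83_al.Basic

set_option autoImplicit false

/-!
# Coinduced extensions and minimal supplements
-/

namespace Pool.Agent.W_MP_84bb83_al

open Function

section coind

variable {X Q A : Type} [Group X] [Group Q] [Group A] (R : Subgroup X) [R.Normal]

/-- a transversal with `tr 1 = 1` -/
noncomputable def tr (γ : X ⧸ R) : X := γ.out * ((1 : X ⧸ R).out)⁻¹

lemma tr_one : tr R 1 = 1 := by simp [tr]

lemma mk_tr (γ : X ⧸ R) : ((tr R γ : X) : X ⧸ R) = γ := by
  unfold tr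
  rw [QuotientGroup.mk_mul, QuotientGroup.mk_inv, QuotientGroup.out_eq', QuotientGroup.out_eq']
  simp

lemma tr_mem (x : X) (γ : X ⧸ R) : (tr R γ)⁻¹ * x * tr R ((x : X ⧸ R)⁻¹ * γ) ∈ R := by
  rw [← QuotientGroup.eq_one_iff]
  simp [mk_tr]

/-- the `R`-valued cocycle -/
noncomputable def coc (x : X) (γ : X ⧸ R) : R := ⟨_, tr_mem R x γ⟩

lemma coc_mul (x y : X) (γ : X ⧸ R) : coc R (x * y) γ = coc R x γ * coc R y ((x : X ⧸ R)⁻¹ * γ) := by
  ext
  simp only [coc, Subgroup.coe_mul, QuotientGroup.mk_mul, mul_inv_rev]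
  rw [mul_assoc (y : X ⧸ R)⁻¹]
  group

lemma coc_one_right (x : R) : coc R (x : X) 1 = x := by
  ext
  have : ((x : X) : X ⧸ R) = 1 := (QuotientGroup.eq_one_iff _).mpr x.2
  simp [coc, this, tr_one]

/-- the action of `X` on functions on `X ⧸ R` -/
noncomputable def act (A : Type) [Group A] : X →* MulAut ((X ⧸ R) → A) :=
  (mulAutArrow : (X ⧸ R) →* MulAut ((X ⧸ R) → A)).comp (QuotientGroup.mk' R)

lemma act_apply (x : X) (F : (X ⧸ R) → A) (γ : X ⧸ R) : act R A x F γ = F ((x : X ⧸ R)⁻¹ * γ) := by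
  simp [act, mulAutArrow]
  rfl

variable (ρ : R →* Q) (α : A →* Q)

/-- the coinduced extension -/
noncomputable def coind : Subgroup (((X ⧸ R) → A) ⋊[act R A] X) where
  carrier := {w | ∀ γ, α (w.left γ) = ρ (coc R w.right γ)}
  mul_mem' := by
    intro a b ha hb γ
    simp only [SemidirectProduct.mul_left, SemidirectProduct.mul_right, Pi.mul_apply, map_mul, act_apply]
    rw [ha, hb, coc_mul, map_mul]
  one_mem' := by
    intro γ
    simp only [SemidirectProduct.one_left, Pi.one_apply, map_one, SemidirectProduct.one_right]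
    have : coc R (1 : X) γ = 1 := by
      ext
      simp [coc]
    rw [this, map_one]
  inv_mem' := by
    intro a ha γ
    rw [SemidirectProduct.inv_left, SemidirectProduct.inv_right, act_apply, Pi.inv_apply, map_inv, ha]
    have h1 := coc_mul R a.right⁻¹ a.right γ
    have h2 : coc R (1 : X) γ = 1 := by
      ext
      simp [coc]
    rw [inv_mul_cancel, h2] at h1
    rw [← map_inv]
    congr 1
    exact (eq_inv_of_mul_eq_one_left h1.symm).symm

/-- Construction K -/
theorem exists_coind [Finite X] [Finite A] (hρ : Surjective ρ) (hα : Surjective α) :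
    ∃ (E : Type) (_ : Group E) (_ : Finite E) (ε : E →* X) (ψ : (R.comap ε) →* A),
      Surjective ε ∧ Surjective ψ ∧ ∀ e : R.comap ε, α (ψ e) = ρ ⟨ε e, e.2⟩ := by
  classical
  have hfin : Finite (((X ⧸ R) → A) ⋊[act R A] X) := 
    Finite.of_equiv _ (SemidirectProduct.equivProd).symm
  let ε : coind R ρ α →* X := SemidirectProduct.rightHom.comp (coind R ρ α).subtype
  have hεa : ∀ e, ε e = e.1.right := fun e => rfl
  have hright : ∀ e : R.comap ε, ((e.1.1.right : X) : X ⧸ R) = 1 :=
    fun e => (QuotientGroup.eq_one_iff _).mpr e.2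
  let ψ : (R.comap ε) →* A := {
    toFun := fun e => e.1.1.left 1
    map_one' := rfl
    map_mul' := by
      intro e f
      simp only [Subgroup.coe_mul, SemidirectProduct.mul_left, Pi.mul_apply, act_apply]
      rw [hright e]
      simp }
  refine ⟨coind R ρ α, inferInstance, inferInstance, ε, ψ, ?_, ?_, ?_⟩
  · intro x
    choose F hF using fun γ => hα (ρ (coc R x γ))
    exact ⟨⟨⟨F, x⟩, hF⟩, rfl⟩
  · intro a
    obtain ⟨r, hr⟩ := hρ (α a)
    choose F hF using fun γ => hα (ρ (coc R (r : X) γ))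
    let F' : (X ⧸ R) → A := Function.update F 1 a
    have hF' : ∀ γ, α (F' γ) = ρ (coc R (r : X) γ) := by
      intro γ
      by_cases h : γ = 1
      · subst h
        simp only [F', Function.update_self]
        rw [coc_one_right, hr]
      · simp only [F', Function.update_of_ne h]
        exact hF γ
    refine ⟨⟨⟨⟨F', (r : X)⟩, hF'⟩, ?_⟩, ?_⟩
    · rw [Subgroup.mem_comap]
      exact r.2
    · show F' 1 = a
      simp [F']
  · intro e
    show α (e.1.1.left 1) = _
    rw [e.1.2 1]
    congr 1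
    have := coc_one_right R (⟨ε e, e.2⟩ : R)
    exact this

end coind

section supplement

/-- existence of minimal supplements -/
theorem exists_min_supplement {E : Type} [Group E] [Finite E] (N : Subgroup E) [N.Normal] :
    ∃ Y : Subgroup E, Y ⊔ N = ⊤ ∧ N.subgroupOf Y ≤ frattini Y := by
  have hne : ({Y : Subgroup E | Y ⊔ N = ⊤}).Nonempty := ⟨⊤, by simp⟩
  obtain ⟨Y, hY⟩ := (Set.toFinite {Y : Subgroup E | Y ⊔ N = ⊤}).exists_minimal hne
  refine ⟨Y, hY.1, ?_⟩
  have key : ∀ m : Subgroup Y, IsCoatom m → N.subgroupOf Y ≤ m := by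
    intro m hm
    by_contra hcon
    have h1 : m ⊔ N.subgroupOf Y = ⊤ := by
      apply hm.2
      refine lt_of_le_of_ne le_sup_left ?_
      intro h
      apply hcon
      rw [h]
      exact le_sup_right
    have h2 : m.map Y.subtype ⊔ N = ⊤ := by
      rw [eq_top_iff, ← hY.1]
      apply sup_le _ le_sup_right
      intro y hy
      have : (⟨y, hy⟩ : Y) ∈ m ⊔ N.subgroupOf Y := by rw [h1]; trivial
      have h3 : y ∈ (m ⊔ N.subgroupOf Y).map Y.subtype := ⟨⟨y, hy⟩, this, rfl⟩
      rw [Subgroup.map_sup] at h3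
      have h4 : (N.subgroupOf Y).map Y.subtype ≤ N := by
        rw [Subgroup.subgroupOf_map_subtype]; exact inf_le_left
      exact (sup_le_sup_left h4 _) h3
    have h3 : Y ≤ m.map Y.subtype := hY.2 h2 (Subgroup.map_subtype_le m)
    apply hm.1
    rw [eq_top_iff]
    intro y _
    obtain ⟨z, hz, hzy⟩ := h3 y.2
    have : z = y := Subtype.ext hzy
    rw [← this]; exact hz
  unfold frattini
  unfold Order.radical
  exact le_iInf₂ (fun m hm => key m hm)

end supplement

section lift

variable {F : Cls} (hF : QCl F) (hsat : ∀ (G : Type) [Group G] [Finite G], F (G ⧸ frattini G) → F G)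
include hF hsat

/-- Lemma G -/
theorem exists_lift {X Q L : Type} [Group X] [Group Q] [Group L] [Finite X] [Finite L] (R : Subgroup X) [R.Normal]
    (ρ : R →* Q) (α : L →* Q) (hρ : Surjective ρ) (hα : Surjective α) (hX : F X) :
    ∃ (Y : Type) (_ : Group Y) (_ : Finite Y) (ε : Y →* X) (ψ : (R.comap ε) →* L),
      F Y ∧ Surjective ε ∧ ∀ e : R.comap ε, α (ψ e) = ρ ⟨ε e, e.2⟩ := by
  obtain ⟨E, _, _, ε, ψ, hε, hψ, hc⟩ := exists_coind R ρ α hρ hα
  obtain ⟨Y, hY, hfr⟩ := exists_min_supplement ε.ker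
  let ε' : Y →* X := ε.comp Y.subtype
  have hε' : Surjective ε' := by
    intro x
    obtain ⟨e, rfl⟩ := hε x
    have he : e ∈ Y ⊔ ε.ker := by rw [hY]; trivial
    rw [Subgroup.mem_sup_of_normal_right] at he
    obtain ⟨y, hy, z, hz, rfl⟩ := he
    refine ⟨⟨y, hy⟩, ?_⟩
    rw [MonoidHom.mem_ker] at hz
    simp [ε', hz]
  have hker : ε'.ker = ε.ker.subgroupOf Y := rfl
  refine ⟨Y, inferInstance, inferInstance, ε', ?_, ?_, hε', ?_⟩
  · exact ψ.comp { toFun := fun e => ⟨e.1.1, e.2⟩, map_one' := rfl, map_mul' := fun _ _ => rfl }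
  · apply hsat
    have h1 : QIn F (ε'.ker) := hF.qin_ker ε' hε' hX
    rw [hker] at h1
    obtain ⟨_, h2⟩ := hF.mono h1 hfr inferInstance
    exact h2
  · intro e
    exact hc ⟨e.1.1, e.2⟩

end lift

end Pool.Agent.W_MP_84bb83_al
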