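import Mathlib

set_option autoImplicit false

/-!
# A Gaschütz type lemma
-/

namespace Pool.Agent.W_MP_84bb83_al

open Function

/-- Lemma T -/
theorem exists_compl {A : Type} [Group A] [Finite A] (N J C : Subgroup A) [N.Normal] [C.Normal]
    (hab : ∀ a ∈ N, ∀ b ∈ N, a * b = b * a) (hJN : J ⊓ N = ⊥) (hsup : N ⊔ J = C)
    (hcop : (Nat.card N).Coprime C.index) : ∃ K : Subgroup A, K ⊔ N = ⊤ ∧ K ⊓ N = ⊥ := by
  classical
  have hNC : N ≤ C := by rw [← hsup]; exact le_sup_left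
  -- transversal
  let t : A ⧸ C → A := Quotient.out
  have ht : ∀ γ : A ⧸ C, ((t γ : A) : A ⧸ C) = γ := fun γ => QuotientGroup.out_eq' γ
  have hex : ∀ (a : A) (γ : A ⧸ C), ∃ n : N, (t ((a : A ⧸ C) * γ))⁻¹ * (n : A)⁻¹ * a * t γ ∈ J := by
    intro a γ
    have h1 : (t ((a : A ⧸ C) * γ))⁻¹ * (a * t γ) ∈ C := by
      rw [← QuotientGroup.eq, ht, QuotientGroup.mk_mul, ht]
    have h1' := hsup.ge h1
    rw [Subgroup.mem_sup_of_normal_left] at h1'
    obtain ⟨n', hn', j, hj, hnj⟩ := h1'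
    refine ⟨⟨t ((a : A ⧸ C) * γ) * n' * (t ((a : A ⧸ C) * γ))⁻¹, Subgroup.Normal.conj_mem inferInstance n' hn' _⟩, ?_⟩
    have : (t ((a : A ⧸ C) * γ))⁻¹ * (t ((a : A ⧸ C) * γ) * n' * (t ((a : A ⧸ C) * γ))⁻¹)⁻¹ * a * t γ = j := by
      have h2 : a * t γ = t ((a : A ⧸ C) * γ) * (n' * j) := by rw [hnj]; group
      have h3 : (t ((a : A ⧸ C) * γ))⁻¹ * (t ((a : A ⧸ C) * γ) * n' * (t ((a : A ⧸ C) * γ))⁻¹)⁻¹ * a * t γ =
        (t ((a : A ⧸ C) * γ))⁻¹ * (t ((a : A ⧸ C) * γ) * n' * (t ((a : A ⧸ C) * γ))⁻¹)⁻¹ * (a * t γ) := by group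
      rw [h3, h2]; group
    simp only
    rw [this]
    exact hj
  have huniq : ∀ (a : A) (γ γ' : A ⧸ C) (n₁ n₂ : N), (t γ')⁻¹ * (n₁ : A)⁻¹ * a * t γ ∈ J →
      (t γ')⁻¹ * (n₂ : A)⁻¹ * a * t γ ∈ J → n₁ = n₂ := by
    intro a γ γ' n₁ n₂ h1 h2
    have h3 := mul_mem h1 (inv_mem h2)
    have h4 : (t γ')⁻¹ * (n₁ : A)⁻¹ * a * t γ * ((t γ')⁻¹ * (n₂ : A)⁻¹ * a * t γ)⁻¹ =
      (t γ')⁻¹ * ((n₁⁻¹ * n₂ : N) : A) * ((t γ')⁻¹)⁻¹ := by
      simp only [Subgroup.coe_mul, Subgroup.coe_inv]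
      group
    rw [h4] at h3
    have h5 : (t γ')⁻¹ * ((n₁⁻¹ * n₂ : N) : A) * ((t γ')⁻¹)⁻¹ ∈ N :=
      Subgroup.Normal.conj_mem inferInstance _ (n₁⁻¹ * n₂ : N).2 _
    have h6 : (t γ')⁻¹ * ((n₁⁻¹ * n₂ : N) : A) * ((t γ')⁻¹)⁻¹ ∈ J ⊓ N := ⟨h3, h5⟩
    rw [hJN, Subgroup.mem_bot] at h6
    have h7 : ((n₁⁻¹ * n₂ : N) : A) = 1 := by
      rw [← conj_eq_one_iff (a := (t γ')⁻¹)]
      exact h6
    have h8 : n₁⁻¹ * n₂ = 1 := Subtype.ext h7
    exact inv_mul_eq_one.mp h8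
  choose ν hν using hex
  let _ : CommGroup N := { (inferInstance : Group N) with
    mul_comm := fun a b => Subtype.ext (hab _ a.2 _ b.2) }
  have : Fintype (A ⧸ C) := Fintype.ofFinite _
  -- cocycle identity
  have hcoc : ∀ (a b : A) (γ : A ⧸ C), ν (a * b) γ =
      MulAut.conjNormal a (ν b γ) * ν a ((b : A ⧸ C) * γ) := by
    intro a b γ
    apply huniq (a * b) γ (((a * b : A) : A ⧸ C) * γ)
    · exact hν (a * b) γ
    · have h1 := hν a ((b : A ⧸ C) * γ)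
      have h2 := hν b γ
      have h3 := mul_mem h1 h2
      have h4 : ((a * b : A) : A ⧸ C) * γ = (a : A ⧸ C) * ((b : A ⧸ C) * γ) := by
        rw [QuotientGroup.mk_mul, mul_assoc]
      rw [h4]
      convert h3 using 1
      simp only [Subgroup.coe_mul, MulAut.conjNormal_apply, mul_inv_rev]
      group
  have hνN : ∀ (n : N) (γ : A ⧸ C), ν (n : A) γ = n := by
    intro n γ
    have h1 : ((n : A) : A ⧸ C) = 1 := (QuotientGroup.eq_one_iff _).mpr (hNC n.2)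
    apply huniq (n : A) γ (((n : A) : A ⧸ C) * γ)
    · exact hν (n : A) γ
    · rw [h1, one_mul]
      have : (t γ)⁻¹ * (n : A)⁻¹ * n * t γ = 1 := by group
      rw [this]
      exact one_mem _
  let δ : A → N := fun a => ∏ γ : A ⧸ C, ν a γ
  have hδ : ∀ a b, δ (a * b) = MulAut.conjNormal a (δ b) * δ a := by
    intro a b
    show ∏ γ : A ⧸ C, ν (a * b) γ = MulAut.conjNormal a (∏ γ : A ⧸ C, ν b γ) * ∏ γ : A ⧸ C, ν a γ
    simp only [hcoc]
    rw [Finset.prod_mul_distrib, map_prod]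
    congr 1
    exact Fintype.prod_equiv (Equiv.mulLeft (b : A ⧸ C)) _ _ (fun γ => rfl)
  have hδN : ∀ n : N, δ (n : A) = n ^ C.index := by
    intro n
    show ∏ γ : A ⧸ C, ν (n : A) γ = n ^ C.index
    simp only [hνN]
    rw [Finset.prod_const, Finset.card_univ, ← Nat.card_eq_fintype_card]
    rfl
  have hδ1 : δ 1 = 1 := by
    have := hδN 1
    simpa using this
  let K : Subgroup A := {
    carrier := {a | δ a = 1}
    mul_mem' := by
      intro a b ha hb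
      have ha' : δ a = 1 := ha
      have hb' : δ b = 1 := hb
      show δ (a * b) = 1
      rw [hδ, ha', hb', map_one, one_mul]
    one_mem' := hδ1
    inv_mem' := by
      intro a ha
      have ha' : δ a = 1 := ha
      show δ a⁻¹ = 1
      have h1 := hδ a a⁻¹
      rw [mul_inv_cancel, hδ1, ha', mul_one] at h1
      exact ((MulAut.conjNormal a : MulAut N).map_eq_one_iff).mp h1.symm }
  refine ⟨K, ?_, ?_⟩
  · rw [eq_top_iff]
    intro a _
    obtain ⟨n, hn⟩ := (powCoprime hcop).surjective (δ a)⁻¹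
    have hn' : n ^ C.index = (δ a)⁻¹ := hn
    have h1 : δ ((n : A) * a) = 1 := by
      rw [hδ, hδN, hn']
      have : (MulAut.conjNormal (n : A) (δ a) : N) = δ a := by
        apply Subtype.ext
        rw [MulAut.conjNormal_apply, hab _ n.2 _ (δ a).2, mul_inv_cancel_right]
      rw [this, mul_inv_cancel]
    have h2 : a = (n : A)⁻¹ * ((n : A) * a) := by group
    rw [h2]
    exact mul_mem (Subgroup.mem_sup_right (inv_mem n.2)) (Subgroup.mem_sup_left (show (n : A) * a ∈ K from h1))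
  · rw [eq_bot_iff]
    rintro a ⟨haK, haN⟩
    have h1 : δ ((⟨a, haN⟩ : N) : A) = 1 := haK
    rw [hδN] at h1
    have h2 := (powCoprime hcop).injective (a₁ := (⟨a, haN⟩ : N)) (a₂ := 1) (by
      show (⟨a, haN⟩ : N) ^ C.index = 1 ^ C.index
      rw [h1, one_pow])
    rw [Subgroup.mem_bot]
    exact congrArg Subtype.val h2

end Pool.Agent.W_MP_84bb83_al
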