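import Pool.Agent.W_MP_84bb83_al.RcGc

set_option autoImplicit false

/-!
# `Rc` is closed under direct products with a simple group
-/

namespace Pool.Agent.W_MP_84bb83_al

open Function

section perfect

variable {H : Cls} (hH : IsForm H)
include hH

/-- the induced map on the residual of a product -/
lemma exists_prod_map {B S Y X : Type} [Group B] [Group S] [Group Y] [Group X] [Finite Y] [Finite X]
    (f₁ : res H Y →* B) (f : res H X →* S) : ∃ Ψ : res H (Y × X) →* B × S,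
      ∀ (z : res H (Y × X)) (h₁ : z.1.1 ∈ res H Y) (h₂ : z.1.2 ∈ res H X), Ψ z = (f₁ ⟨z.1.1, h₁⟩, f ⟨z.1.2, h₂⟩) := by
  have m1 : ∀ z : res H (Y × X), z.1.1 ∈ res H Y := fun z => hH.map_mem_res (MonoidHom.fst Y X) Prod.fst_surjective z.2
  have m2 : ∀ z : res H (Y × X), z.1.2 ∈ res H X := fun z => hH.map_mem_res (MonoidHom.snd Y X) Prod.snd_surjective z.2
  let g₁ : res H (Y × X) →* res H Y := ((MonoidHom.fst Y X).comp (Subgroup.subtype _)).codRestrict _ m1
  let g₂ : res H (Y × X) →* res H X := ((MonoidHom.snd Y X).comp (Subgroup.subtype _)).codRestrict _ m2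
  exact ⟨(f₁.comp g₁).prod (f.comp g₂), fun z h₁ h₂ => rfl⟩

/-- product with a perfect group -/
lemma rc_prod_perfect {B S : Type} [Group B] [Group S] (hB : Rc H B) (hS : Rc H S)
    (hp : commutator S = ⊤) : Rc H (B × S) := by
  obtain ⟨Y, _, _, f₁, hf₁⟩ := hB
  obtain ⟨X, _, _, f, hf⟩ := hS
  have hn := hH.res_normal (Y × X)
  have m1 : ∀ z ∈ res H (Y × X), z.1 ∈ res H Y := fun z hz => hH.map_mem_res (MonoidHom.fst Y X) Prod.fst_surjective hz
  have m2 : ∀ z ∈ res H (Y × X), z.2 ∈ res H X := fun z hz => hH.map_mem_res (MonoidHom.snd Y X) Prod.snd_surjective hz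
  obtain ⟨Ψ, hΨ⟩ := exists_prod_map hH f₁ f
  have key : ∀ s : S, (1, s) ∈ Ψ.range := by
    have hc : commutator S ≤ Ψ.range.comap (MonoidHom.inr B S) := by
      rw [commutator_def, Subgroup.commutator_le]
      intro s _ s' _
      obtain ⟨r, rfl⟩ := hf s
      obtain ⟨r', rfl⟩ := hf s'
      obtain ⟨z, hz, hzr⟩ := hH.lift_mem_res (MonoidHom.snd Y X) Prod.snd_surjective r.2
      have hzr' : z.2 = r := hzr
      rw [Subgroup.mem_comap]
      have hmem : z * ((1, (r' : X)) * z⁻¹ * (1, (r' : X))⁻¹) ∈ res H (Y × X) :=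
        mul_mem hz (hn.conj_mem _ (inv_mem hz) _)
      refine ⟨⟨_, hmem⟩, ?_⟩
      rw [hΨ ⟨_, hmem⟩ (m1 _ hmem) (m2 _ hmem)]
      have e1 : (⟨(z * ((1, (r' : X)) * z⁻¹ * (1, (r' : X))⁻¹)).1, m1 _ hmem⟩ : res H Y) = 1 := by
        ext; simp
      have e2 : (⟨(z * ((1, (r' : X)) * z⁻¹ * (1, (r' : X))⁻¹)).2, m2 _ hmem⟩ : res H X) =
          r * r' * r⁻¹ * r'⁻¹ := by
        ext; simp [hzr', mul_assoc]
      rw [e1, e2, map_one]
      ext <;> simp [commutatorElement_def]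
    intro s
    have : s ∈ commutator S := by rw [hp]; trivial
    exact hc this
  refine ⟨Y × X, inferInstance, inferInstance, Ψ, ?_⟩
  rintro ⟨b, s⟩
  obtain ⟨r, rfl⟩ := hf₁ b
  obtain ⟨z, hz, hzr⟩ := hH.lift_mem_res (MonoidHom.fst Y X) Prod.fst_surjective r.2
  have hzr' : z.1 = r := hzr
  obtain ⟨w, hw⟩ := key ((f ⟨z.2, m2 z hz⟩)⁻¹ * s)
  refine ⟨⟨z, hz⟩ * w, ?_⟩
  rw [map_mul, hw, hΨ ⟨z, hz⟩ (m1 z hz) (m2 z hz)]
  have e1 : (⟨z.1, m1 z hz⟩ : res H Y) = r := Subtype.ext hzr'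
  show (f₁ ⟨z.1, m1 z hz⟩, f ⟨z.2, m2 z hz⟩) * _ = _
  rw [e1]
  ext <;> simp

end perfect

section shear

variable {H : Cls}

variable {M Γ : Type} [Group M] [Group Γ] (φ : Γ →* MulAut M)

/-- the fibre square of the split extension -/
def sq : Subgroup ((M ⋊[φ] Γ) × (M ⋊[φ] Γ)) where
  carrier := {p | p.1.right = p.2.right}
  mul_mem' := by
    intro a b ha hb
    have ha' : a.1.right = a.2.right := ha
    have hb' : b.1.right = b.2.right := hb
    show (a * b).1.right = (a * b).2.right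
    simp [ha', hb']
  one_mem' := rfl
  inv_mem' := by
    intro a ha
    have ha' : a.1.right = a.2.right := ha
    show (a⁻¹).1.right = (a⁻¹).2.right
    simp [ha']

/-- the shear automorphism -/
def shear (hc : ∀ a b : M, a * b = b * a) : sq φ →* sq φ where
  toFun := fun p => ⟨(⟨p.1.2.left * p.1.1.left, p.1.1.right⟩, p.1.2), p.2⟩
  map_one' := by
    ext <;> simp
  map_mul' := by
    intro p q
    have hp : p.1.1.right = p.1.2.right := p.2
    have hq : q.1.1.right = q.1.2.right := q.2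
    apply Subtype.ext
    apply Prod.ext
    · apply SemidirectProduct.ext
      · simp only [Subgroup.coe_mul, Prod.fst_mul, Prod.snd_mul, SemidirectProduct.mul_left, map_mul]
        rw [hp]
        simp only [mul_assoc]
        congr 1
        rw [← mul_assoc, hc (φ p.1.2.right q.1.2.left) p.1.1.left, mul_assoc]
      · simp
    · rfl

lemma shear_surj [Finite M] [Finite Γ] (hc : ∀ a b : M, a * b = b * a) : Surjective (shear φ hc) := by
  have : Finite (M ⋊[φ] Γ) := Finite.of_equiv _ (SemidirectProduct.equivProd).symm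
  apply Finite.surjective_of_injective
  rw [injective_iff_map_eq_one]
  intro p hp
  have h1 : (shear φ hc p).1 = 1 := congrArg Subtype.val hp
  have h2 : p.1.2 = 1 := congrArg Prod.snd h1
  have h3 : (⟨p.1.2.left * p.1.1.left, p.1.1.right⟩ : M ⋊[φ] Γ) = 1 := congrArg Prod.fst h1
  have h4 : p.1.2.left * p.1.1.left = 1 := congrArg SemidirectProduct.left h3
  have h5 : p.1.1.right = 1 := congrArg SemidirectProduct.right h3
  rw [h2, SemidirectProduct.one_left, one_mul] at h4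
  apply Subtype.ext
  apply Prod.ext
  · exact SemidirectProduct.ext h4 h5
  · exact h2

variable (hH : IsForm H)
include hH

/-- product with a group of prime order, from a split extension -/
lemma rc_prod_of_split [Finite M] [Finite Γ] (hc : ∀ a b : M, a * b = b * a)
    {B S : Type} [Group B] [Group S] (f : res H (M ⋊[φ] Γ) →* S) (hf : Surjective f)
    (hres : ∀ x ∈ res H (M ⋊[φ] Γ), x.right = 1) (hS : (Nat.card S).Prime) (hB : Rc H B) : Rc H (B × S) := by
  have hfin : Finite (M ⋊[φ] Γ) := Finite.of_equiv _ (SemidirectProduct.equivProd).symm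
  obtain ⟨Y, _, _, f₁, hf₁⟩ := hB
  let p₁ : sq φ →* (M ⋊[φ] Γ) := (MonoidHom.fst _ _).comp (sq φ).subtype
  let p₂ : sq φ →* (M ⋊[φ] Γ) := (MonoidHom.snd _ _).comp (sq φ).subtype
  have hp₁ : Surjective p₁ := fun g => ⟨⟨(g, g), rfl⟩, rfl⟩
  have hp₂ : Surjective p₂ := fun g => ⟨⟨(g, g), rfl⟩, rfl⟩
  have hn := hH.res_normal (Y × sq φ)
  have m1 : ∀ z ∈ res H (Y × sq φ), z.1 ∈ res H Y := fun z hz =>
    hH.map_mem_res (MonoidHom.fst Y (sq φ)) Prod.fst_surjective hz
  have m2 : ∀ z ∈ res H (Y × sq φ), z.2 ∈ res H (sq φ) := fun z hz =>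
    hH.map_mem_res (MonoidHom.snd Y (sq φ)) Prod.snd_surjective hz
  let f₂ : res H (sq φ) →* S := f.comp ((p₁.comp (Subgroup.subtype _)).codRestrict _
    (fun z => hH.map_mem_res p₁ hp₁ z.2))
  obtain ⟨Ψ, hΨ⟩ := exists_prod_map hH f₁ f₂
  -- the fibre over 1
  have hT := Subgroup.eq_bot_or_eq_top_of_prime_card (G := S) (H := Ψ.range.comap (MonoidHom.inr B S)) (hp := ⟨hS⟩)
  have key : Ψ.range.comap (MonoidHom.inr B S) = ⊤ := by
    rcases hT with h | h
    swap
    · exact h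
    exfalso
    have hSn : Nontrivial S := by
      have : Finite S := Finite.of_surjective f hf
      rw [← Finite.one_lt_card_iff_nontrivial]
      exact hS.one_lt
    obtain ⟨s₀, hs₀⟩ := exists_ne (1 : S)
    obtain ⟨g, hg⟩ := hf s₀
    -- an element with second coordinate `g`
    obtain ⟨z, hz, hzg⟩ := hH.lift_mem_res (p₂.comp (MonoidHom.snd Y (sq φ)))
      (hp₂.comp Prod.snd_surjective) g.2
    have hzg' : z.2.1.2 = g := hzg
    let sh : Y × sq φ →* Y × sq φ := (MonoidHom.id Y).prodMap (shear φ hc)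
    have hsh : Surjective sh := by
      rintro ⟨y, q⟩
      obtain ⟨q', rfl⟩ := shear_surj φ hc q
      exact ⟨(y, q'), rfl⟩
    have hz' : sh z ∈ res H (Y × sq φ) := hH.res_auto sh hsh hz
    have hw : sh z * z⁻¹ ∈ res H (Y × sq φ) := mul_mem hz' (inv_mem hz)
    have e1 : (sh z * z⁻¹).1 = 1 := by
      show z.1 * z.1⁻¹ = 1
      simp
    have e2 : (sh z * z⁻¹).2.1.1 = g := by
      have h1 : (sh z * z⁻¹).2.1.1 = (⟨z.2.1.2.left * z.2.1.1.left, z.2.1.1.right⟩ : M ⋊[φ] Γ) * (z.2.1.1)⁻¹ := rfl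
      rw [h1]
      have h2 : (⟨z.2.1.2.left * z.2.1.1.left, z.2.1.1.right⟩ : M ⋊[φ] Γ) =
          SemidirectProduct.inl z.2.1.2.left * z.2.1.1 := by
        apply SemidirectProduct.ext
        · simp
        · simp
      rw [h2, mul_inv_cancel_right, hzg']
      apply SemidirectProduct.ext
      · simp
      · simp [hres g g.2]
    have h3 : ((1 : B), s₀) ∈ Ψ.range := by
      refine ⟨⟨_, hw⟩, ?_⟩
      rw [hΨ ⟨_, hw⟩ (m1 _ hw) (m2 _ hw)]
      have e1' : (⟨(sh z * z⁻¹).1, m1 _ hw⟩ : res H Y) = 1 := Subtype.ext e1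
      have e2' : f₂ ⟨(sh z * z⁻¹).2, m2 _ hw⟩ = f g := congrArg f (Subtype.ext e2)
      show (f₁ ⟨(sh z * z⁻¹).1, m1 _ hw⟩, f₂ ⟨(sh z * z⁻¹).2, m2 _ hw⟩) = _
      rw [e1', e2', map_one, hg]
    have h4 : s₀ ∈ Ψ.range.comap (MonoidHom.inr B S) := h3
    rw [h, Subgroup.mem_bot] at h4
    exact hs₀ h4
  refine ⟨Y × sq φ, inferInstance, inferInstance, Ψ, ?_⟩
  rintro ⟨b, s⟩
  obtain ⟨r, rfl⟩ := hf₁ b
  obtain ⟨z, hz, hzr⟩ := hH.lift_mem_res (MonoidHom.fst Y (sq φ)) Prod.fst_surjective r.2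
  have hzr' : z.1 = r := hzr
  have hmem : (f₂ ⟨z.2, m2 z hz⟩)⁻¹ * s ∈ Ψ.range.comap (MonoidHom.inr B S) := by rw [key]; trivial
  obtain ⟨w, hw⟩ := hmem
  refine ⟨⟨z, hz⟩ * w, ?_⟩
  rw [map_mul, hw, hΨ ⟨z, hz⟩ (m1 z hz) (m2 z hz)]
  have e1 : (⟨z.1, m1 z hz⟩ : res H Y) = r := Subtype.ext hzr'
  show (f₁ ⟨z.1, m1 z hz⟩, f₂ ⟨z.2, m2 z hz⟩) * _ = _
  rw [e1]
  ext <;> simp

end shear

section BBH

variable {H : Cls} (hH : IsForm H)
include hH

/-- if `G` is in `H`, `M` is an abelian normal subgroup and `X` a supplement of `M` then `X` is in `H` -/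
lemma bbh {G X : Type} [Group G] [Finite G] [Group X] [Finite X] (hG : H G) (M : Subgroup G) [M.Normal]
    (hM : ∀ a ∈ M, ∀ b ∈ M, a * b = b * a) (κ : X →* G) (hκ : Injective κ)
    (hsup : ∀ g : G, ∃ x : X, (κ x)⁻¹ * g ∈ M) : H X := by
  let P : Subgroup (G × G × X) := {
    carrier := {q | (κ q.2.2)⁻¹ * q.1 ∈ M ∧ (κ q.2.2)⁻¹ * q.2.1 ∈ M}
    mul_mem' := by
      intro a b ha hb
      simp only [← QuotientGroup.eq, Set.mem_ofPred_eq] at ha hb ⊢
      simp only [Prod.fst_mul, Prod.snd_mul, map_mul, QuotientGroup.mk_mul]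
      exact ⟨by rw [ha.1, hb.1], by rw [ha.2, hb.2]⟩
    one_mem' := by
      simp
    inv_mem' := by
      intro a ha
      simp only [← QuotientGroup.eq, Set.mem_ofPred_eq] at ha ⊢
      simp only [Prod.fst_inv, Prod.snd_inv, map_inv, QuotientGroup.mk_inv]
      exact ⟨by rw [ha.1], by rw [ha.2]⟩ }
  have hP : ∀ q : P, (κ q.1.2.2)⁻¹ * q.1.1 ∈ M ∧ (κ q.1.2.2)⁻¹ * q.1.2.1 ∈ M := fun q => q.2
  let p₁ : P →* G := (MonoidHom.fst _ _).comp P.subtype
  let p₂ : P →* G := ((MonoidHom.fst _ _).comp (MonoidHom.snd _ _)).comp P.subtype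
  let pX : P →* X := ((MonoidHom.snd _ _).comp (MonoidHom.snd _ _)).comp P.subtype
  let p₃ : P →* G := {
    toFun := fun q => q.1.1 * (κ q.1.2.2)⁻¹ * q.1.2.1
    map_one' := by simp
    map_mul' := by
      intro a b
      simp only [Subgroup.coe_mul, Prod.fst_mul, Prod.snd_mul, map_mul, mul_inv_rev]
      have h1 := (hP a).2
      have h2 : b.1.1 * (κ b.1.2.2)⁻¹ ∈ M := by
        rw [Subgroup.Normal.mem_comm_iff inferInstance]
        exact (hP b).1
      have h3 := hM _ h1 _ h2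
      calc a.1.1 * b.1.1 * ((κ b.1.2.2)⁻¹ * (κ a.1.2.2)⁻¹) * (a.1.2.1 * b.1.2.1) 
          = a.1.1 * ((b.1.1 * (κ b.1.2.2)⁻¹) * ((κ a.1.2.2)⁻¹ * a.1.2.1)) * b.1.2.1 := by group
        _ = a.1.1 * (((κ a.1.2.2)⁻¹ * a.1.2.1) * (b.1.1 * (κ b.1.2.2)⁻¹)) * b.1.2.1 := by rw [h3]
        _ = _ := by group }
  have hs₁ : Surjective p₁ := by
    intro g
    obtain ⟨x, hx⟩ := hsup g
    exact ⟨⟨(g, g, x), hx, hx⟩, rfl⟩
  have hs₂ : Surjective p₂ := by
    intro g
    obtain ⟨x, hx⟩ := hsup g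
    exact ⟨⟨(g, g, x), hx, hx⟩, rfl⟩
  have hs₃ : Surjective p₃ := by
    intro g
    obtain ⟨x, hx⟩ := hsup g
    refine ⟨⟨(g, κ x, x), hx, by simp⟩, ?_⟩
    show g * (κ x)⁻¹ * κ x = g
    simp
  have hsX : Surjective pX := by
    intro x
    exact ⟨⟨(κ x, κ x, x), by simp, by simp⟩, rfl⟩
  have hPH : H P := by
    apply hH.bot
    apply hH.mono (hH.qin_inf (hH.qin_inf (hH.qin_ker p₁ hs₁ hG) (hH.qin_ker p₂ hs₂ hG))
      (hH.qin_ker p₃ hs₃ hG)) _ inferInstance
    rintro q ⟨⟨h1, h2⟩, h3⟩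
    have h1' : q.1.1 = 1 := h1
    have h2' : q.1.2.1 = 1 := h2
    have h3' : q.1.1 * (κ q.1.2.2)⁻¹ * q.1.2.1 = 1 := h3
    rw [h1', h2', one_mul, mul_one, inv_eq_one] at h3'
    have h4 : q.1.2.2 = 1 := hκ (by rw [h3', map_one])
    rw [Subgroup.mem_bot]
    apply Subtype.ext
    exact Prod.ext h1' (Prod.ext h2' h4)
  exact hH.surj pX hsX hPH

omit hH in
/-- the Krasner-Kaloujnine embedding -/
lemma exists_kk {X : Type} [Group X] (R : Subgroup X) [R.Normal] :
    ∃ κ : X →* (((X ⧸ R) → R) ⋊[(mulAutArrow : (X ⧸ R) →* MulAut ((X ⧸ R) → R))] (X ⧸ R)),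
      Injective κ ∧ ∀ x, (κ x).right = x := by
  let κ : X →* (((X ⧸ R) → R) ⋊[(mulAutArrow : (X ⧸ R) →* MulAut ((X ⧸ R) → R))] (X ⧸ R)) := {
    toFun := fun x => ⟨coc R x, (x : X ⧸ R)⟩
    map_one' := by
      apply SemidirectProduct.ext
      · funext γ
        ext
        simp [coc]
      · rfl
    map_mul' := by
      intro x y
      apply SemidirectProduct.ext
      · funext γ
        rw [SemidirectProduct.mul_left, Pi.mul_apply]
        exact coc_mul R x y γ
      · rfl }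
  refine ⟨κ, ?_, fun x => rfl⟩
  rw [injective_iff_map_eq_one]
  intro x hx
  have h1 : coc R x = 1 := congrArg SemidirectProduct.left hx
  have h2 : (x : X ⧸ R) = 1 := congrArg SemidirectProduct.right hx
  rw [QuotientGroup.eq_one_iff] at h2
  have h3 := coc_one_right R ⟨x, h2⟩
  simp only at h3
  rw [h1] at h3
  exact (congrArg Subtype.val h3).symm

omit hH in
/-- a nontrivial commutative group of exponent `p` has a quotient of order `p` -/
lemma exists_quot_prime {A : Type} [Group A] [Finite A] [Nontrivial A] (hc : ∀ a b : A, a * b = b * a)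
    (p : ℕ) (hp : p.Prime) (hexp : ∀ a : A, a ^ p = 1) :
    ∃ (K : Subgroup A) (_ : K.Normal), Nat.card (A ⧸ K) = p := by
  obtain ⟨K, hK, -⟩ : ∃ K : Subgroup A, IsCoatom K ∧ (⊥ : Subgroup A) ≤ K := by
    rcases IsCoatomic.eq_top_or_exists_le_coatom (⊥ : Subgroup A) with h | h
    · exact absurd h bot_ne_top
    · exact h
  have hKn : K.Normal := ⟨fun n hn g => by rw [hc g n, mul_inv_cancel_right]; exact hn⟩
  obtain ⟨a, ha⟩ : ∃ a, a ∉ K := by
    by_contra hcon
    push Not at hcon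
    exact hK.1 (by rw [eq_top_iff]; exact fun x _ => hcon x)
  have h1 : K ⊔ Subgroup.zpowers a = ⊤ := by
    apply hK.2
    refine lt_of_le_of_ne le_sup_left ?_
    intro h
    apply ha
    rw [h]
    exact Subgroup.mem_sup_right (Subgroup.mem_zpowers a)
  have h2 : ∀ x : A ⧸ K, x ∈ Subgroup.zpowers (a : A ⧸ K) := by
    intro x
    obtain ⟨x, rfl⟩ := QuotientGroup.mk_surjective x
    have hx : x ∈ K ⊔ Subgroup.zpowers a := by rw [h1]; trivial
    rw [Subgroup.mem_sup_of_normal_left] at hx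
    obtain ⟨y, hy, z, hz, rfl⟩ := hx
    obtain ⟨n, rfl⟩ := hz
    rw [QuotientGroup.mk_mul, (QuotientGroup.eq_one_iff y).mpr hy, one_mul]
    exact ⟨n, by simp⟩
  refine ⟨K, hKn, ?_⟩
  have h3 : orderOf (a : A ⧸ K) = p := by
    have : Fact p.Prime := ⟨hp⟩
    apply orderOf_eq_prime
    · rw [← QuotientGroup.mk_pow, hexp, QuotientGroup.mk_one]
    · intro h
      exact ha ((QuotientGroup.eq_one_iff a).mp h)
  rw [← h3]
  exact (orderOf_eq_card_of_forall_mem_zpowers h2).symm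

/-- product with a group of prime order -/
theorem rc_prod_prime {B S : Type} [Group B] [Group S] (hB : Rc H B) (hS : Rc H S)
    (hp : (Nat.card S).Prime) : Rc H (B × S) := by
  set p := Nat.card S with hpdef
  have hSfin : Finite S := hS.finite
  have hSn : Nontrivial S := by
    rw [← Finite.one_lt_card_iff_nontrivial]
    exact hp.one_lt
  have hScyc : IsCyclic S := by
    have : Fact p.Prime := ⟨hp⟩
    exact isCyclic_of_prime_card (p := p) hpdef.symm
  have hScomm : ∀ a b : S, a * b = b * a := by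
    intro a b
    obtain ⟨g, hg⟩ := hScyc.exists_generator
    obtain ⟨m, rfl⟩ := hg a
    obtain ⟨n, rfl⟩ := hg b
    simp only
    rw [← zpow_add, ← zpow_add, add_comm]
  have hSexp : ∀ a : S, a ^ p = 1 := fun a => by rw [hpdef]; exact pow_card_eq_one'
  obtain ⟨X, _, _, f, hf⟩ := hS
  have hRn : (res H X).Normal := hH.res_normal X
  set L : Subgroup X := (f.ker.map (res H X).subtype).normalCore with hL
  have hLn : L.Normal := Subgroup.normalCore_normal _
  have hLK : L ≤ f.ker.map (res H X).subtype := Subgroup.normalCore_le _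
  have hLmem : ∀ r : res H X, (∀ x : X, f (MulAut.conjNormal x r) = 1) → (r : X) ∈ L := by
    intro r hr x
    exact ⟨MulAut.conjNormal x r, hr x, rfl⟩
  let π : X →* X ⧸ L := QuotientGroup.mk' L
  have hπ : Surjective π := QuotientGroup.mk'_surjective L
  have hmap : (res H X).map π = res H (X ⧸ L) := hH.res_map π hπ
  -- properties of the residual of the quotient
  have hRc : ∀ a ∈ res H (X ⧸ L), ∀ b ∈ res H (X ⧸ L), a * b = b * a := by
    intro a ha b hb
    rw [← hmap] at ha hb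
    obtain ⟨a, ha, rfl⟩ := ha
    obtain ⟨b, hb, rfl⟩ := hb
    rw [← map_mul, ← map_mul]
    show ((a * b : X) : X ⧸ L) = ((b * a : X) : X ⧸ L)
    rw [QuotientGroup.eq]
    refine hLmem ((⟨a, ha⟩ * ⟨b, hb⟩)⁻¹ * (⟨b, hb⟩ * ⟨a, ha⟩)) ?_
    intro x
    simp only [map_mul, map_inv]
    rw [hScomm (f (MulAut.conjNormal x ⟨b, hb⟩))]
    simp
  have hRexp : ∀ a ∈ res H (X ⧸ L), a ^ p = 1 := by
    intro a ha
    rw [← hmap] at ha
    obtain ⟨a, ha, rfl⟩ := ha
    rw [← map_pow]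
    show ((a ^ p : X) : X ⧸ L) = 1
    rw [QuotientGroup.eq_one_iff]
    refine hLmem (⟨a, ha⟩ ^ p) ?_
    intro x
    rw [map_pow, map_pow, hSexp]
  have hRne : res H (X ⧸ L) ≠ ⊥ := by
    intro h
    obtain ⟨s, hs⟩ := exists_ne (1 : S)
    obtain ⟨r, rfl⟩ := hf s
    apply hs
    have h1 : π (r : X) ∈ res H (X ⧸ L) := by
      rw [← hmap]; exact ⟨r, r.2, rfl⟩
    rw [h, Subgroup.mem_bot] at h1
    have h2 : (r : X) ∈ L := (QuotientGroup.eq_one_iff _).mp h1
    obtain ⟨r', hr', he⟩ := hLK h2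
    have : r' = r := Subtype.ext he
    rw [← this]
    exact hr'
  -- now pass to the split extension
  have hR'n : (res H (X ⧸ L)).Normal := hH.res_normal _
  obtain ⟨κ, hκ, hκr⟩ := exists_kk (res H (X ⧸ L))
  set G := (((X ⧸ L) ⧸ res H (X ⧸ L)) → res H (X ⧸ L)) ⋊[(mulAutArrow :
    ((X ⧸ L) ⧸ res H (X ⧸ L)) →* MulAut (((X ⧸ L) ⧸ res H (X ⧸ L)) → res H (X ⧸ L)))] ((X ⧸ L) ⧸ res H (X ⧸ L)) with hG
  have hGfin : Finite G := Finite.of_equiv _ (SemidirectProduct.equivProd).symm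
  let ρ : G →* ((X ⧸ L) ⧸ res H (X ⧸ L)) := SemidirectProduct.rightHom
  have hρ : Surjective ρ := SemidirectProduct.rightHom_surjective
  have hcomm : ∀ a b : ((X ⧸ L) ⧸ res H (X ⧸ L)) → res H (X ⧸ L), a * b = b * a := by
    intro a b
    funext γ
    apply Subtype.ext
    exact hRc _ (a γ).2 _ (b γ).2
  have hright : ∀ x ∈ res H G, x.right = 1 := by
    have h1 : res H G ≤ ρ.ker := by
      apply res_le
      apply hH.qin_ker ρ hρ
      exact (hH.qin_res (X ⧸ L)).2
    exact fun x hx => h1 hx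
  have hGH : ¬ H G := by
    intro hGH
    have : H (X ⧸ L) := by
      refine bbh hH hGH ρ.ker ?_ κ hκ ?_
      · intro a ha b hb
        have ha' : a.right = 1 := ha
        have hb' : b.right = 1 := hb
        apply SemidirectProduct.ext
        · rw [SemidirectProduct.mul_left, SemidirectProduct.mul_left, ha', hb', map_one]
          exact hcomm _ _
        · rw [SemidirectProduct.mul_right, SemidirectProduct.mul_right, ha', hb']
      · intro g
        obtain ⟨x, hx⟩ := QuotientGroup.mk_surjective g.right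
        refine ⟨x, ?_⟩
        rw [MonoidHom.mem_ker, map_mul, map_inv]
        show ((κ x).right)⁻¹ * g.right = 1
        rw [hκr, hx, inv_mul_cancel]
    exact hRne (hH.res_eq_bot.mpr this)
  have hGne : res H G ≠ ⊥ := fun h => hGH (hH.res_eq_bot.mp h)
  have hGnt : Nontrivial (res H G) := (Subgroup.nontrivial_iff_ne_bot _).mpr hGne
  have hleft : ∀ x : res H G, (x : G) = SemidirectProduct.inl (x : G).left := by
    intro x
    apply SemidirectProduct.ext
    · simp
    · simp [hright x x.2]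
  have hGc : ∀ a b : res H G, a * b = b * a := by
    intro a b
    apply Subtype.ext
    rw [Subgroup.coe_mul, Subgroup.coe_mul, hleft a, hleft b, ← map_mul, ← map_mul, hcomm]
  have hGe : ∀ a : res H G, a ^ p = 1 := by
    intro a
    apply Subtype.ext
    rw [Subgroup.coe_pow, hleft a, ← map_pow]
    have : (a : G).left ^ p = 1 := by
      funext γ
      apply Subtype.ext
      exact hRexp _ ((a : G).left γ).2
    rw [this, map_one]
    rfl
  obtain ⟨K, hK, hKc⟩ := exists_quot_prime hGc p hp hGe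
  have : Fact p.Prime := ⟨hp⟩
  let e : (res H G ⧸ K) ≃* S := mulEquivOfPrimeCardEq (p := p) hKc hpdef.symm
  exact rc_prod_of_split _ hH hcomm (e.toMonoidHom.comp (QuotientGroup.mk' K))
    (e.surjective.comp (QuotientGroup.mk'_surjective K)) hright hp hB

end BBH

end Pool.Agent.W_MP_84bb83_al
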