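import Pool.Agent.W_MP_84bb83_al.Constr

set_option autoImplicit false

/-!
# Quotients of residuals
-/

namespace Pool.Agent.W_MP_84bb83_al

open Function

/-- `B` is a quotient of the `H`-residual of some finite group -/
def Rc (H : Cls) : Cls := fun B _ =>
  ∃ (X : Type) (_ : Group X) (_ : Finite X) (f : res H X →* B), Surjective f

/-- `B` is a quotient of the `H`-residual of some finite group in `F` -/
def Gc (F H : Cls) : Cls := fun B _ =>
  ∃ (X : Type) (_ : Group X) (_ : Finite X) (f : res H X →* B), F X ∧ Surjective f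

lemma Rc.surj {H : Cls} {A B : Type} [Group A] [Group B] (f : A →* B) (hf : Surjective f) (h : Rc H A) :
    Rc H B := by
  obtain ⟨X, _, _, g, hg⟩ := h
  exact ⟨X, inferInstance, inferInstance, f.comp g, hf.comp hg⟩

lemma Gc.surj {F H : Cls} {A B : Type} [Group A] [Group B] (f : A →* B) (hf : Surjective f) (h : Gc F H A) :
    Gc F H B := by
  obtain ⟨X, _, _, g, hX, hg⟩ := h
  exact ⟨X, inferInstance, inferInstance, f.comp g, hX, hf.comp hg⟩

lemma Gc.rc {F H : Cls} {A : Type} [Group A] (h : Gc F H A) : Rc H A := by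
  obtain ⟨X, _, _, g, hX, hg⟩ := h
  exact ⟨X, inferInstance, inferInstance, g, hg⟩

lemma Rc.finite {H : Cls} {A : Type} [Group A] (h : Rc H A) : Finite A := by
  obtain ⟨X, _, _, g, hg⟩ := h
  exact Finite.of_surjective g hg

lemma qcl_Rc (H : Cls) : QCl (Rc H) where
  iso := fun _ _ _ _ ⟨e⟩ h => h.surj e.toMonoidHom e.surjective
  quo := fun _ _ _ N _ h => h.surj (QuotientGroup.mk' N) (QuotientGroup.mk'_surjective N)

lemma Rc.of_subsingleton {H : Cls} {A : Type} [Group A] [Subsingleton A] : Rc H A :=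
  ⟨Unit, inferInstance, inferInstance, 1, fun a => ⟨1, Subsingleton.elim _ _⟩⟩

lemma qin_Rc_top {H : Cls} {A : Type} [Group A] : QIn (Rc H) (⊤ : Subgroup A) :=
  ⟨inferInstance, by
    have : Subsingleton (A ⧸ (⊤ : Subgroup A)) := QuotientGroup.subsingleton_quotient_top
    exact Rc.of_subsingleton⟩

section dec

variable {F M H : Cls}

/-- the decomposition `F = M H` in terms of `res` -/
def Dec (F M H : Cls) : Prop := ∀ (G : Type) [Group G] [Finite G], F G ↔ M (res H G)

lemma Gc.mem (hM : IsForm M) (hd : Dec F M H) {B : Type} [Group B] (h : Gc F H B) : M B := by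
  obtain ⟨X, _, _, g, hX, hg⟩ := h
  exact hM.surj g hg ((hd X).mp hX)

/-- Lemma 1: `M ∩ Rc = Gc` -/
theorem gc_of (hM : IsForm M) (hH : IsForm H) (hd : Dec F M H) {B : Type} [Group B] (hB : M B) (hR : Rc H B) :
    Gc F H B := by
  obtain ⟨X, _, _, f, hf⟩ := hR
  have hRn : (res H X).Normal := hH.res_normal X
  set L : Subgroup X := (f.ker.map (res H X).subtype).normalCore with hL
  have hLn : L.Normal := Subgroup.normalCore_normal _
  have hLK : L ≤ f.ker.map (res H X).subtype := Subgroup.normalCore_le _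
  let π : X →* X ⧸ L := QuotientGroup.mk' L
  have hπ : Surjective π := QuotientGroup.mk'_surjective L
  have hmap : (res H X).map π = res H (X ⧸ L) := hH.res_map π hπ
  let g : res H X →* res H (X ⧸ L) := 
    (π.comp (res H X).subtype).codRestrict (res H (X ⧸ L)) (fun r => by
      rw [← hmap]; exact ⟨r, r.2, rfl⟩)
  have hg : Surjective g := by
    rintro ⟨y, hy⟩
    rw [← hmap] at hy
    obtain ⟨r, hr, rfl⟩ := hy
    exact ⟨⟨r, hr⟩, rfl⟩
  have hgk : g.ker = L.subgroupOf (res H X) := by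
    ext r
    rw [MonoidHom.mem_ker, Subgroup.mem_subgroupOf, ← QuotientGroup.eq_one_iff]
    constructor
    · intro h
      exact congrArg Subtype.val h
    · intro h
      exact Subtype.ext h
  have hfam : ∀ x : X, QIn M (f.comp (MulAut.conjNormal x : MulAut (res H X)).toMonoidHom).ker :=
    fun x => hM.qin_ker _ (hf.comp (MulEquiv.surjective _)) hB
  have hQ : QIn M (L.subgroupOf (res H X)) := by
    apply hM.of_family _ hfam (hLn.subgroupOf _)
    intro r hr
    rw [Subgroup.mem_iInf] at hr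
    rw [Subgroup.mem_subgroupOf]
    show (r : X) ∈ (f.ker.map (res H X).subtype).normalCore
    intro b
    exact ⟨MulAut.conjNormal b r, hr b, rfl⟩
  have hMg : M (res H (X ⧸ L)) := hM.of_le_ker hQ g hg hgk.ge
  have hFX : F (X ⧸ L) := (hd (X ⧸ L)).mpr hMg
  obtain ⟨k, hk⟩ := exists_factor g hg f (by
    rw [hgk]
    intro r hr
    rw [Subgroup.mem_subgroupOf] at hr
    obtain ⟨r', hr', he⟩ := hLK hr
    have : r' = r := Subtype.ext he
    rw [← this]
    exact hr')
  refine ⟨X ⧸ L, inferInstance, inferInstance, k, hFX, ?_⟩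
  intro b
  obtain ⟨r, rfl⟩ := hf b
  exact ⟨g r, hk r⟩

end dec

section image

variable {H : Cls} (hH : IsForm H)
include hH

/-- the image of the residual under `ψ` -/
lemma image_res {X Y L : Type} [Group X] [Group Y] [Group L] [Finite Y] (ε : Y →* X) (hε : Surjective ε)
    (R : Subgroup X) (hR : res H X ≤ R) (ψ : (R.comap ε) →* L) :
    ∃ (J : Subgroup L) (f : res H Y →* J), Surjective f ∧
      J = ((res H Y).subgroupOf (R.comap ε)).map ψ ∧
      (∀ r ∈ res H X, ∃ e : R.comap ε, ε e = r ∧ ψ e ∈ J) ∧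
      (∀ j ∈ J, ∃ e : R.comap ε, ε e ∈ res H X ∧ ψ e = j) := by
  have hle : res H Y ≤ R.comap ε := by
    rw [← Subgroup.map_le_iff_le_comap, hH.res_map ε hε]
    exact hR
  let θ : res H Y →* L := ψ.comp (Subgroup.inclusion hle)
  refine ⟨((res H Y).subgroupOf (R.comap ε)).map ψ, θ.codRestrict _ (fun r => ?_), ?_, rfl, ?_, ?_⟩
  · exact ⟨Subgroup.inclusion hle r, r.2, rfl⟩
  · rintro ⟨l, ⟨e, he, rfl⟩⟩
    exact ⟨⟨e.1, he⟩, rfl⟩
  · intro r hr
    rw [← hH.res_map ε hε] at hr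
    obtain ⟨y, hy, rfl⟩ := hr
    exact ⟨⟨y, hle hy⟩, rfl, ⟨⟨y, hle hy⟩, hy, rfl⟩⟩
  · rintro j ⟨e, he, rfl⟩
    refine ⟨e, ?_, rfl⟩
    rw [← hH.res_map ε hε]
    exact ⟨e.1, he, rfl⟩

/-- Lemma 2 -/
theorem rc_supplement {C : Type} [Group C] [Finite C] (N : Subgroup C) [N.Normal] (h : Rc H (C ⧸ N)) :
    ∃ J : Subgroup C, J.Normal ∧ Rc H J ∧ J ⊔ N = ⊤ := by
  obtain ⟨X, _, _, ρ, hρ⟩ := h
  have := hH.res_normal X
  obtain ⟨E, _, _, ε, ψ, hε, hψ, hc⟩ := exists_coind (res H X) ρ (QuotientGroup.mk' N) hρ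
    (QuotientGroup.mk'_surjective N)
  obtain ⟨J, f, hf, hJ, h1, h2⟩ := image_res hH ε hε (res H X) le_rfl ψ
  have hEn := hH.res_normal E
  refine ⟨J, ?_, ⟨E, inferInstance, inferInstance, f, hf⟩, ?_⟩
  · rw [hJ]
    exact (hEn.subgroupOf _).map ψ hψ
  · rw [eq_top_iff]
    intro c _
    obtain ⟨r, hr⟩ := hρ (QuotientGroup.mk' N c)
    obtain ⟨e, he, heJ⟩ := h1 r r.2
    have h3 := hc e
    have h4 : (⟨ε e, e.2⟩ : res H X) = r := Subtype.ext he
    rw [h4, hr] at h3
    have h5 : (ψ e)⁻¹ * c ∈ N := QuotientGroup.eq.mp h3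
    have : c = ψ e * ((ψ e)⁻¹ * c) := by group
    rw [this]
    exact Subgroup.mul_mem_sup heJ h5

end image

end Pool.Agent.W_MP_84bb83_al
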