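import Pool.Agent.W_MP_84bb83_al.Top
import Pool.Agent.W_MP_84bb83_al.Gasch

set_option autoImplicit false

/-!
# Lemma D1
-/

namespace Pool.Agent.W_MP_84bb83_al

open Function

section D1

variable {M : Cls} (hM : IsForm M)
include hM

omit hM in
/-- image of `QIn` under an automorphism -/
lemma QCl.map_auto {F : Cls} (hF : QCl F) {C : Type} [Group C] [Finite C] (e : MulAut C) {K : Subgroup C}
    (h : QIn F K) : QIn F (K.map e.toMonoidHom) := by
  have h1 := hF.comap (e.symm : C ≃* C).toMonoidHom (e.symm : C ≃* C).surjective h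
  have h2 : K.comap (e.symm : C ≃* C).toMonoidHom = K.map e.toMonoidHom :=
    (Subgroup.map_equiv_eq_comap_symm (e : C ≃* C) K).symm
  rwa [h2] at h1

/-- Lemma D1 -/
theorem lemmaD1 {C A : Type} [Group C] [Finite C] [Group A] (c : A →* MulAut C) (N : Subgroup C) [N.Normal]
    (hNc : ∀ a, N.map (c a).toMonoidHom ≤ N) (hab : ∀ a ∈ N, ∀ b ∈ N, a * b = b * a)
    (hmin : ∀ N' : Subgroup C, N'.Normal → (∀ a, N'.map (c a).toMonoidHom ≤ N') → N' ≤ N → N' = ⊥ ∨ N' = N)
    (J : Subgroup C) (hJ : M J) (hJN : J ⊔ N = ⊤) (hne : J ⊓ N ≠ ⊥) : M C := by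
  -- `V = J ⊓ N` is normal in `C`
  have hV : (J ⊓ N).Normal := by
    constructor
    rintro v ⟨hvJ, hvN⟩ g
    have hg : g ∈ J ⊔ N := by rw [hJN]; trivial
    rw [Subgroup.mem_sup_of_normal_right] at hg
    obtain ⟨j, hj, n, hn, rfl⟩ := hg
    have hvJ' : v ∈ J := hvJ
    refine ⟨?_, Subgroup.Normal.conj_mem inferInstance v hvN _⟩
    show j * n * v * (j * n)⁻¹ ∈ J
    have : j * n * v * (j * n)⁻¹ = j * v * j⁻¹ := by
      have h1 := hab n hn v hvN
      calc j * n * v * (j * n)⁻¹ = j * (n * v) * n⁻¹ * j⁻¹ := by group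
        _ = j * (v * n) * n⁻¹ * j⁻¹ := by rw [h1]
        _ = _ := by group
    rw [this]
    exact mul_mem (mul_mem hj hvJ') (inv_mem hj)
  -- a minimal normal subgroup inside `V`
  obtain ⟨V₁, hV₁⟩ := (Set.toFinite {W : Subgroup C | W.Normal ∧ W ≤ J ⊓ N ∧ W ≠ ⊥}).exists_minimal
    ⟨J ⊓ N, hV, le_rfl, hne⟩
  obtain ⟨⟨hV₁n, hV₁le, hV₁ne⟩, hV₁min⟩ := hV₁
  have hV₁m : ∀ W : Subgroup C, W.Normal → W ≤ V₁ → W ≠ ⊥ → V₁ ≤ W := fun W h1 h2 h3 =>
    hV₁min ⟨h1, h2.trans hV₁le, h3⟩ h2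
  -- maximal complement-like subgroup
  obtain ⟨N', hN'⟩ := (Set.toFinite {W : Subgroup C | W.Normal ∧ W ≤ N ∧ W ⊓ V₁ = ⊥}).exists_maximal
    ⟨⊥, inferInstance, bot_le, bot_inf_eq _⟩
  obtain ⟨⟨hN'n, hN'le, hN'V⟩, hN'max⟩ := hN'
  have hV₁N : V₁ ≤ N := hV₁le.trans inf_le_right
  have hVa : ∀ a, V₁.map (c a).toMonoidHom ≤ N' ⊔ V₁ := by
    intro a
    by_contra hcon
    have hn1 : (V₁.map (c a).toMonoidHom).Normal := hV₁n.map _ (c a).surjective
    have hleN : V₁.map (c a).toMonoidHom ≤ N := (Subgroup.map_mono hV₁N).trans (hNc a)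
    -- the intersection is trivial
    have h1 : V₁.map (c a).toMonoidHom ⊓ (N' ⊔ V₁) = ⊥ := by
      by_contra hne'
      have h2 : ((V₁.map (c a).toMonoidHom ⊓ (N' ⊔ V₁)).comap (c a).toMonoidHom).Normal := inferInstance
      have h3 : (V₁.map (c a).toMonoidHom ⊓ (N' ⊔ V₁)).comap (c a).toMonoidHom ≤ V₁ := by
        intro x hx
        obtain ⟨⟨y, hy, hyx⟩, -⟩ := hx
        have : y = x := (c a).injective hyx
        rw [← this]; exact hy
      have h4 : (V₁.map (c a).toMonoidHom ⊓ (N' ⊔ V₁)).comap (c a).toMonoidHom ≠ ⊥ := by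
        intro h
        apply hne'
        rw [eq_bot_iff]
        intro x hx
        obtain ⟨y, rfl⟩ := (c a).surjective x
        have : y ∈ (V₁.map (c a).toMonoidHom ⊓ (N' ⊔ V₁)).comap (c a).toMonoidHom := hx
        rw [h, Subgroup.mem_bot] at this
        rw [this, map_one]
        exact one_mem _
      have h5 := hV₁m _ h2 h3 h4
      apply hcon
      rintro _ ⟨x, hx, rfl⟩
      exact (h5 hx).2
    have h2 : (N' ⊔ V₁.map (c a).toMonoidHom) ⊓ V₁ = ⊥ := by
      rw [eq_bot_iff]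
      rintro x ⟨hx, hxV⟩
      have hx' : x ∈ N' ⊔ V₁.map (c a).toMonoidHom := hx
      rw [Subgroup.mem_sup_of_normal_right] at hx'
      obtain ⟨n', hn', v, hv, rfl⟩ := hx'
      have hv' : v ∈ V₁.map (c a).toMonoidHom ⊓ (N' ⊔ V₁) := by
        refine ⟨hv, ?_⟩
        have : v = n'⁻¹ * (n' * v) := by group
        rw [this]
        exact mul_mem (Subgroup.mem_sup_left (inv_mem hn')) (Subgroup.mem_sup_right hxV)
      rw [h1, Subgroup.mem_bot] at hv'
      subst hv'
      rw [mul_one] at hxV ⊢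
      rw [← hN'V]
      exact ⟨hn', hxV⟩
    have h3 := hN'max ⟨inferInstance, sup_le hN'le hleN, h2⟩ le_sup_left
    exact hcon ((le_sup_right.trans h3).trans le_sup_left)
  -- `N = N' ⊔ V₁`
  have hS : N ≤ N' ⊔ V₁ := by
    have hSn : (⨆ a, V₁.map (c a).toMonoidHom).Normal := by
      have : ∀ a, (V₁.map (c a).toMonoidHom).Normal := fun a => hV₁n.map _ (c a).surjective
      exact Subgroup.iSup_normal _
    have hSle : (⨆ a, V₁.map (c a).toMonoidHom) ≤ N := iSup_le (fun a => (Subgroup.map_mono hV₁N).trans (hNc a))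
    have hSinv : ∀ b, (⨆ a, V₁.map (c a).toMonoidHom).map (c b).toMonoidHom ≤ ⨆ a, V₁.map (c a).toMonoidHom := by
      intro b
      rw [Subgroup.map_iSup]
      apply iSup_le
      intro a
      have h1 : (V₁.map (c a).toMonoidHom).map (c b).toMonoidHom = V₁.map (c (b * a)).toMonoidHom := by
        rw [Subgroup.map_map, map_mul]
        rfl
      rw [h1]
      exact le_iSup (fun a => V₁.map (c a).toMonoidHom) (b * a)
    rcases hmin _ hSn hSinv hSle with h | h
    · exfalso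
      apply hV₁ne
      rw [eq_bot_iff, ← h]
      refine le_trans ?_ (le_iSup (fun a => V₁.map (c a).toMonoidHom) 1)
      intro x hx
      exact ⟨x, hx, by simp⟩
    · rw [← h]
      exact iSup_le hVa
  have hJN' : J ⊔ N' = ⊤ := by
    rw [eq_top_iff, ← hJN]
    apply sup_le le_sup_left
    exact hS.trans (sup_le le_sup_right ((hV₁le.trans inf_le_left).trans le_sup_left))
  have hQ : QIn M N' := ⟨hN'n, hM.surj _ (surj_of_sup J N' hJN') hJ⟩
  -- intersection of the conjugates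
  have hIn : (⨅ a, N'.map (c a).toMonoidHom).Normal := by
    have : ∀ a, (N'.map (c a).toMonoidHom).Normal := fun a => hN'n.map _ (c a).surjective
    exact Subgroup.normal_iInf_normal this
  have hI1 : (⨅ a, N'.map (c a).toMonoidHom) ≤ N' := by
    refine le_trans (iInf_le (fun a => N'.map (c a).toMonoidHom) 1) ?_
    rintro _ ⟨x, hx, rfl⟩
    simpa using hx
  have hIinv : ∀ b, (⨅ a, N'.map (c a).toMonoidHom).map (c b).toMonoidHom ≤ ⨅ a, N'.map (c a).toMonoidHom := by
    intro b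
    apply le_iInf
    intro a
    rintro _ ⟨x, hx, rfl⟩
    have hx' : x ∈ ⨅ a, N'.map (c a).toMonoidHom := hx
    rw [Subgroup.mem_iInf] at hx'
    obtain ⟨y, hy, hyx⟩ := hx' (b⁻¹ * a)
    refine ⟨y, hy, ?_⟩
    rw [← hyx]
    simp
  have hI : (⨅ a, N'.map (c a).toMonoidHom) = ⊥ := by
    rcases hmin _ hIn hIinv (hI1.trans hN'le) with h | h
    · exact h
    · exfalso
      apply hV₁ne
      rw [eq_bot_iff, ← hN'V]
      refine le_inf ?_ le_rfl
      exact hV₁N.trans (h.ge.trans hI1)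
  apply hM.bot
  exact hM.of_family _ (fun a => hM.toQCl.map_auto (c a) hQ) inferInstance hI.le

end D1

end Pool.Agent.W_MP_84bb83_al
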