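import Pool.Agent.W_MP_84bb83_al.Sat1

set_option autoImplicit false

/-!
# Lemma W and the automorphism moving a complement
-/

namespace Pool.Agent.W_MP_84bb83_al

open Function

section theta

/-- the automorphism carrying one complement to another -/
theorem exists_theta {C : Type} [Group C] [Finite C] (N J J₁ : Subgroup C) [N.Normal]
    (hab : ∀ a ∈ N, ∀ b ∈ N, a * b = b * a) {p : ℕ} (hexp : ∀ a ∈ N, a ^ p = 1)
    (hJ : J ⊔ N = ⊤) (hJ0 : J ⊓ N = ⊥) (hJ₁ : J₁ ⊔ N = ⊤) (hJ₁0 : J₁ ⊓ N = ⊥) :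
    ∃ θ : MulAut C, (∀ n ∈ N, θ n = n) ∧ (∀ x, θ x * x⁻¹ ∈ N) ∧ θ ^ p = 1 ∧ ∀ j ∈ J, θ j ∈ J₁ := by
  have aux : ∀ J : Subgroup C, J ⊔ N = ⊤ → J ⊓ N = ⊥ → ∃ ν : C → C, (∀ c, ν c ∈ N) ∧ (∀ c, (ν c)⁻¹ * c ∈ J) ∧
      (∀ c, ∀ n ∈ N, n⁻¹ * c ∈ J → ν c = n) := by
    intro J h1 h2
    have hex : ∀ c : C, ∃ n, n ∈ N ∧ n⁻¹ * c ∈ J := by
      intro c
      have hc : c ∈ J ⊔ N := by rw [h1]; trivial
      rw [sup_comm, Subgroup.mem_sup_of_normal_left] at hc
      obtain ⟨n, hn, j, hj, rfl⟩ := hc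
      exact ⟨n, hn, by rw [inv_mul_cancel_left]; exact hj⟩
    choose ν hν using hex
    refine ⟨ν, fun c => (hν c).1, fun c => (hν c).2, ?_⟩
    intro c n hn hnc
    have h3 : (ν c)⁻¹ * c * (n⁻¹ * c)⁻¹ ∈ J := mul_mem (hν c).2 (inv_mem hnc)
    have h4 : (ν c)⁻¹ * c * (n⁻¹ * c)⁻¹ = (ν c)⁻¹ * n := by group
    rw [h4] at h3
    have h5 : (ν c)⁻¹ * n ∈ J ⊓ N := Subgroup.mem_inf.mpr ⟨h3, mul_mem (inv_mem (hν c).1) hn⟩
    rw [h2, Subgroup.mem_bot] at h5
    exact inv_mul_eq_one.mp h5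
  -- cocycle property
  have coc : ∀ (J : Subgroup C) (ν : C → C), (∀ c, ν c ∈ N) → (∀ c, (ν c)⁻¹ * c ∈ J) →
      (∀ c, ∀ n ∈ N, n⁻¹ * c ∈ J → ν c = n) → ∀ c d, ν (c * d) = ν c * (c * ν d * c⁻¹) := by
    intro J ν h1 h2 h3 c d
    apply h3
    · exact mul_mem (h1 c) (Subgroup.Normal.conj_mem inferInstance _ (h1 d) c)
    · have h4 := mul_mem (h2 c) (h2 d)
      have h5 : (ν c)⁻¹ * c * ((ν d)⁻¹ * d) = (ν c * (c * ν d * c⁻¹))⁻¹ * (c * d) := by
        have h6 := hab _ (h1 c) _ (Subgroup.Normal.conj_mem inferInstance _ (h1 d) c)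
        rw [h6]
        group
      rw [← h5]
      exact h4
  obtain ⟨ν, a1, a2, a3⟩ := aux J hJ hJ0
  obtain ⟨ν₁, b1, b2, b3⟩ := aux J₁ hJ₁ hJ₁0
  have hc := coc J ν a1 a2 a3
  have hc₁ := coc J₁ ν₁ b1 b2 b3
  let δ : C → C := fun c => ν c * (ν₁ c)⁻¹
  have hδN : ∀ c, δ c ∈ N := fun c => mul_mem (a1 c) (inv_mem (b1 c))
  have hδ : ∀ c d, δ (c * d) = δ c * (c * δ d * c⁻¹) := by
    intro c d
    show ν (c * d) * (ν₁ (c * d))⁻¹ = ν c * (ν₁ c)⁻¹ * (c * (ν d * (ν₁ d)⁻¹) * c⁻¹)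
    rw [hc, hc₁]
    have h1 := hab _ (inv_mem (b1 c)) _ (Subgroup.Normal.conj_mem inferInstance _
      (mul_mem (a1 d) (inv_mem (b1 d))) c)
    have h2 : ν c * (ν₁ c)⁻¹ * (c * (ν d * (ν₁ d)⁻¹) * c⁻¹) = ν c * ((ν₁ c)⁻¹ * (c * (ν d * (ν₁ d)⁻¹) * c⁻¹)) := by
      group
    rw [h2, h1]
    group
  have hδ0 : ∀ n ∈ N, δ n = 1 := by
    intro n hn
    have h1 : ν n = n := a3 n n hn (by rw [inv_mul_cancel]; exact one_mem _)
    have h2 : ν₁ n = n := b3 n n hn (by rw [inv_mul_cancel]; exact one_mem _)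
    show ν n * (ν₁ n)⁻¹ = 1
    rw [h1, h2, mul_inv_cancel]
  let θ₀ : C →* C := {
    toFun := fun c => δ c * c
    map_one' := by rw [hδ0 1 (one_mem _), one_mul]
    map_mul' := by
      intro c d
      rw [hδ]
      group }
  have hθ₀ : ∀ c, θ₀ c = δ c * c := fun c => rfl
  have hinj : Injective θ₀ := by
    rw [injective_iff_map_eq_one]
    intro c h
    rw [hθ₀] at h
    have h1 : c ∈ N := by
      have : c = (δ c)⁻¹ := eq_inv_of_mul_eq_one_right h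
      rw [this]
      exact inv_mem (hδN c)
    rw [hδ0 c h1, one_mul] at h
    exact h
  let θ : MulAut C := MulEquiv.ofBijective θ₀ (Finite.injective_iff_bijective.mp hinj)
  have hθ : ∀ c, θ c = δ c * c := fun c => rfl
  have hδθ : ∀ c n, n ∈ N → δ (n * c) = δ c := by
    intro c n hn
    rw [hδ, hδ0 n hn, one_mul, hab n hn _ (hδN c), mul_inv_cancel_right]
  have hpow : ∀ (k : ℕ) c, (θ ^ k) c = δ c ^ k * c := by
    intro k
    induction k with
    | zero => intro c; simp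
    | succ k ih =>
      intro c
      rw [pow_succ, MulAut.mul_apply, ih, hθ, hδθ c _ (hδN c), pow_succ]
      group
  refine ⟨θ, ?_, ?_, ?_, ?_⟩
  · intro n hn
    rw [hθ, hδ0 n hn, one_mul]
  · intro x
    rw [hθ, mul_inv_cancel_right]
    exact hδN x
  · ext c
    rw [hpow, hexp _ (hδN c), one_mul]
    rfl
  · intro j hj
    have h1 : ν j = 1 := a3 j 1 (one_mem _) (by simpa using hj)
    rw [hθ]
    show ν j * (ν₁ j)⁻¹ * j ∈ J₁
    rw [h1, one_mul]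
    exact b2 j

end theta

section W

variable {F M H : Cls} (hF : QCl F) (hsat : ∀ (G : Type) [Group G] [Finite G], F (G ⧸ frattini G) → F G)
  (hM : IsForm M) (hH : IsForm H) (hd : Dec F M H)
include hF hsat hM hH hd

/-- Lemma W -/
theorem lemmaW {C : Type} [Group C] [Finite C] (N : Subgroup C) [N.Normal]
    (hab : ∀ a ∈ N, ∀ b ∈ N, a * b = b * a) (hcen : N ⊓ Subgroup.center C = ⊥)
    (θ : MulAut C) (hθN : ∀ n ∈ N, θ n = n) (hθC : ∀ x, θ x * x⁻¹ ∈ N) (hθ : ∀ n ∈ N, θ ≠ MulAut.conj n)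
    (hZ : H (Subgroup.zpowers θ)) (hg : Gc F H (C ⧸ N)) :
    ∃ J : Subgroup C, M J ∧ J ⊔ N = ⊤ ∧ J ⊓ N ≠ ⊥ := by
  classical
  obtain ⟨X, _, _, f, hX, hf⟩ := hg
  have hRXn : (res H X).Normal := hH.res_normal X
  -- properties of all elements of `zpowers θ`
  have hz : ∀ z ∈ Subgroup.zpowers θ, (∀ n ∈ N, z n = n) ∧ (∀ x, z x * x⁻¹ ∈ N) := by
    intro z hz
    rw [← mem_powers_iff_mem_zpowers] at hz
    obtain ⟨k, rfl⟩ := hz
    simp only
    induction k with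
    | zero => simp
    | succ k ih =>
      refine ⟨fun n hn => by rw [pow_succ, MulAut.mul_apply, hθN n hn, ih.1 n hn], fun x => ?_⟩
      have : (θ ^ (k + 1)) x * x⁻¹ = (θ ^ k) (θ x) * (θ x)⁻¹ * (θ x * x⁻¹) := by
        rw [pow_succ, MulAut.mul_apply]; group
      rw [this]
      exact mul_mem (ih.2 _) (hθC _)
  set Z := Subgroup.zpowers θ with hZdef
  let φ : Z →* MulAut C := Z.subtype
  have hφ : ∀ (z : Z) x, φ z x = (z : MulAut C) x := fun z x => rfl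
  have hKfin : Finite (C ⋊[φ] Z) := Finite.of_equiv _ (SemidirectProduct.equivProd).symm
  -- the quotient map
  let αp : (C ⋊[φ] Z) →* (C ⧸ N) × Z := {
    toFun := fun w => ((w.left : C ⧸ N), w.right)
    map_one' := rfl
    map_mul' := by
      intro a b
      apply Prod.ext
      · show ((a.left * φ a.right b.left : C) : C ⧸ N) = ((a.left * b.left : C) : C ⧸ N)
        have h1 := (hz _ a.right.2).2 b.left
        rw [QuotientGroup.mk_mul, QuotientGroup.mk_mul]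
        congr 1
        rw [← mul_inv_eq_one, ← QuotientGroup.mk_inv, ← QuotientGroup.mk_mul, QuotientGroup.eq_one_iff]
        exact h1
      · rfl }
  have hαp : ∀ w, αp w = ((w.left : C ⧸ N), w.right) := fun w => rfl
  have hαs : Surjective αp := by
    rintro ⟨x, z⟩
    obtain ⟨x, rfl⟩ := QuotientGroup.mk_surjective x
    exact ⟨⟨x, z⟩, rfl⟩
  have hker : ∀ w, w ∈ αp.ker ↔ w.left ∈ N ∧ w.right = 1 := by
    intro w
    rw [MonoidHom.mem_ker, hαp, Prod.ext_iff]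
    show ((w.left : C ⧸ N) = 1 ∧ w.right = 1) ↔ _
    rw [QuotientGroup.eq_one_iff]
  obtain ⟨L, hL, hLfr⟩ := exists_min_supplement αp.ker
  let α : L →* (C ⧸ N) × Z := αp.comp L.subtype
  have hα : ∀ w : L, α w = ((w.1.left : C ⧸ N), w.1.right) := fun w => rfl
  have hαsurj : Surjective α := by
    intro y
    obtain ⟨e, rfl⟩ := hαs y
    have he : e ∈ L ⊔ αp.ker := by rw [hL]; trivial
    rw [Subgroup.mem_sup_of_normal_right] at he
    obtain ⟨l, hl, z, hz', rfl⟩ := he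
    refine ⟨⟨l, hl⟩, ?_⟩
    rw [MonoidHom.mem_ker] at hz'
    show αp l = αp (l * z)
    rw [map_mul, hz', mul_one]
  have hαker : α.ker = αp.ker.subgroupOf L := rfl
  -- `L` meets `N` nontrivially
  have hLN : ∃ n₀ ∈ N, n₀ ≠ 1 ∧ (SemidirectProduct.inl n₀ : C ⋊[φ] Z) ∈ L := by
    by_contra hcon
    push Not at hcon
    have hcon' : ∀ w ∈ L, w ∈ αp.ker → w = 1 := by
      intro w hw hwk
      rw [hker] at hwk
      have h1 : w = SemidirectProduct.inl w.left := by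
        apply SemidirectProduct.ext
        · simp
        · simp [hwk.2]
      by_contra hne
      apply hcon w.left hwk.1
      · intro h
        apply hne
        rw [h1, h, map_one]
      · rw [← h1]; exact hw
    obtain ⟨⟨w, hw⟩, hwα⟩ := hαsurj (1, ⟨θ, Subgroup.mem_zpowers θ⟩)
    have hw1 : (w.left : C ⧸ N) = 1 := congrArg Prod.fst hwα
    have hw2 : w.right = ⟨θ, Subgroup.mem_zpowers θ⟩ := congrArg Prod.snd hwα
    rw [QuotientGroup.eq_one_iff] at hw1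
    -- `θ` agrees with conjugation by `w.left⁻¹`
    apply hθ w.left⁻¹ (inv_mem hw1)
    ext c
    -- find the representative of `c` in `L`
    obtain ⟨⟨u, hu⟩, huα⟩ := hαsurj ((c : C ⧸ N), 1)
    have hu1 : (u.left : C ⧸ N) = (c : C ⧸ N) := congrArg Prod.fst huα
    have hu2 : u.right = 1 := congrArg Prod.snd huα
    rw [QuotientGroup.eq] at hu1
    have h1 : w * u * (u * w)⁻¹ = 1 := by
      apply hcon' _ (mul_mem (mul_mem hw hu) (inv_mem (mul_mem hu hw)))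
      rw [MonoidHom.mem_ker, map_mul, map_inv, map_mul, map_mul, mul_inv_eq_one]
      have e1 : αp w = (1, ⟨θ, Subgroup.mem_zpowers θ⟩) := hwα
      have e2 : αp u = ((c : C ⧸ N), 1) := huα
      rw [e1, e2]
      ext <;> simp
    rw [mul_inv_eq_one] at h1
    have h2 := congrArg SemidirectProduct.left h1
    rw [SemidirectProduct.mul_left, SemidirectProduct.mul_left, hw2, hu2, map_one] at h2
    have h3 : w.left * θ u.left = u.left * w.left := h2
    have h4 : θ (u.left⁻¹ * c) = u.left⁻¹ * c := hθN _ hu1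
    have h5 : c = u.left * (u.left⁻¹ * c) := by group
    have h6 : θ u.left = w.left⁻¹ * u.left * w.left := by
      rw [mul_assoc, ← h3]; group
    rw [MulAut.conj_apply, inv_inv]
    rw [h5, map_mul, h4, h6]
    have h7 := hab _ hw1 _ hu1
    calc w.left⁻¹ * u.left * w.left * (u.left⁻¹ * c) = w.left⁻¹ * u.left * (w.left * (u.left⁻¹ * c)) := by group
      _ = w.left⁻¹ * u.left * ((u.left⁻¹ * c) * w.left) := by rw [h7]
      _ = _ := by group
  obtain ⟨n₀, hn₀N, hn₀, hn₀L⟩ := hLN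
  -- `X × Z` is in `F`
  have hXZ : F (X × Z) := by
    rw [hd]
    have h1 : res H (X × Z) = (res H X).prod ⊥ := hH.res_prod hZ
    have h2 : M (res H X) := (hd X).mp hX
    let g : res H X →* res H (X × Z) := {
      toFun := fun x => ⟨(x.1, 1), by rw [h1]; exact ⟨x.2, one_mem _⟩⟩
      map_one' := rfl
      map_mul' := fun x y => by
        apply Subtype.ext
        apply Prod.ext
        · rfl
        · simp }
    refine hM.surj g ?_ h2
    rintro ⟨⟨x, z⟩, hxz⟩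
    have hxz' := hxz
    rw [h1, Subgroup.mem_prod] at hxz'
    refine ⟨⟨x, hxz'.1⟩, ?_⟩
    apply Subtype.ext
    apply Prod.ext
    · rfl
    · exact (Subgroup.mem_bot.mp hxz'.2).symm
  -- the lift
  let R₂ : Subgroup (X × Z) := (res H X).prod ⊤
  let ρ₂ : R₂ →* (C ⧸ N) × Z := (f.prodMap (⊤ : Subgroup Z).subtype).comp
    (Subgroup.prodEquiv (res H X) (⊤ : Subgroup Z)).toMonoidHom
  have hρ₂ : ∀ (x : X) (z : Z) (h : (x, z) ∈ R₂), ρ₂ ⟨(x, z), h⟩ = (f ⟨x, h.1⟩, z) := fun x z h => rfl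
  have hρ₂s : Surjective ρ₂ := by
    rintro ⟨y, z⟩
    obtain ⟨r, rfl⟩ := hf y
    exact ⟨⟨(r.1, z), ⟨r.2, trivial⟩⟩, rfl⟩
  obtain ⟨Y, _, _, ε, ψ, hY, hε, hc⟩ := exists_lift hF hsat R₂ ρ₂ α hρ₂s hαsurj hXZ
  -- `ψ` is surjective
  have hψ : Surjective ψ := by
    rw [← MonoidHom.range_eq_top]
    apply frattini_nongenerating
    rw [eq_top_iff]
    intro l _
    obtain ⟨r, hr⟩ := hρ₂s (α l)
    obtain ⟨y, hy⟩ := hε r.1
    have hyR : y ∈ R₂.comap ε := by rw [Subgroup.mem_comap, hy]; exact r.2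
    have h1 := hc ⟨y, hyR⟩
    have h2 : (⟨ε y, hyR⟩ : R₂) = r := Subtype.ext hy
    rw [h2, hr] at h1
    have h3 : (ψ ⟨y, hyR⟩)⁻¹ * l ∈ α.ker := by
      rw [MonoidHom.mem_ker, map_mul, map_inv, h1, inv_mul_cancel]
    have h4 : l = ψ ⟨y, hyR⟩ * ((ψ ⟨y, hyR⟩)⁻¹ * l) := by group
    rw [h4]
    exact Subgroup.mul_mem_sup ⟨_, rfl⟩ (hLfr (by rw [← hαker]; exact h3))
  have hresX₂ : res H (X × Z) ≤ R₂ := by
    rw [hH.res_prod hZ]
    rintro ⟨x, z⟩ hx
    exact ⟨hx.1, trivial⟩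
  obtain ⟨J', f', hf', hJ', h1, h2⟩ := image_res hH ε hε R₂ hresX₂ ψ
  have hYn : (res H Y).Normal := hH.res_normal Y
  have hJ'n : J'.Normal := by
    rw [hJ']
    exact (hYn.subgroupOf _).map ψ hψ
  have hJ'M : M J' := hM.surj f' hf' ((hd Y).mp hY)
  have hJ'r : ∀ j ∈ J', j.1.right = 1 := by
    intro j hj
    obtain ⟨e, he, rfl⟩ := h2 j hj
    have h3 := hc e
    rw [hH.res_prod hZ, Subgroup.mem_prod] at he
    have h4 : (ε e).2 = 1 := Subgroup.mem_bot.mp he.2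
    have h5 := congrArg Prod.snd h3
    have h6 : (ψ e).1.right = (ε e).2 := h5
    rw [h6, h4]
  let Λ : J' →* C := {
    toFun := fun j => j.1.1.left
    map_one' := rfl
    map_mul' := by
      intro a b
      show (a.1.1 * b.1.1).left = _
      rw [SemidirectProduct.mul_left, hJ'r a.1 a.2, map_one]
      rfl }
  have hΛ : ∀ j : J', Λ j = j.1.1.left := fun j => rfl
  have hsup : Λ.range ⊔ N = ⊤ := by
    rw [eq_top_iff]
    intro c _
    obtain ⟨r, hr⟩ := hf (c : C ⧸ N)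
    have h3 : ((r : X), (1 : Z)) ∈ res H (X × Z) := by
      rw [hH.res_prod hZ]
      exact ⟨r.2, one_mem _⟩
    obtain ⟨e, he, hej⟩ := h1 _ h3
    have h4 := hc e
    have h5 : ρ₂ ⟨ε e, e.2⟩ = ((c : C ⧸ N), 1) := by
      have : (⟨ε e, e.2⟩ : R₂) = ⟨((r : X), (1 : Z)), hresX₂ h3⟩ := Subtype.ext he
      rw [this, hρ₂]
      rw [← hr]
    rw [h5] at h4
    have h6 : ((ψ e).1.left : C ⧸ N) = (c : C ⧸ N) := congrArg Prod.fst h4
    rw [QuotientGroup.eq] at h6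
    have h7 : c = (ψ e).1.left * ((ψ e).1.left⁻¹ * c) := by group
    rw [h7]
    exact Subgroup.mul_mem_sup ⟨⟨ψ e, hej⟩, rfl⟩ h6
  refine ⟨Λ.range, hM.surj Λ.rangeRestrict Λ.rangeRestrict_surjective hJ'M, hsup, ?_⟩
  · intro hbot
    -- `n₀` is central
    have hcomm : ∀ j : J', Λ j * n₀ = n₀ * Λ j := by
      intro j
      have h3 : j.1 * (⟨_, hn₀L⟩ * j.1⁻¹ * (⟨_, hn₀L⟩ : L)⁻¹) ∈ J' :=
        mul_mem j.2 (hJ'n.conj_mem _ (inv_mem j.2) _)
      have h4 : Λ ⟨_, h3⟩ = Λ j * n₀ * (Λ j)⁻¹ * n₀⁻¹ := by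
        have e1 : j.1.1 = SemidirectProduct.inl (Λ j) := by
          apply SemidirectProduct.ext
          · simp [hΛ]
          · simp [hJ'r j.1 j.2]
        have e2 : (j.1 * (⟨_, hn₀L⟩ * j.1⁻¹ * (⟨_, hn₀L⟩ : L)⁻¹)).1 =
            SemidirectProduct.inl (Λ j * n₀ * (Λ j)⁻¹ * n₀⁻¹) := by
          show j.1.1 * (SemidirectProduct.inl n₀ * j.1.1⁻¹ * (SemidirectProduct.inl n₀)⁻¹) = _
          rw [e1]
          simp only [map_mul, map_inv, mul_assoc]
        rw [hΛ]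
        simp only
        rw [e2, SemidirectProduct.left_inl]
      have h5 : Λ ⟨_, h3⟩ ∈ Λ.range ⊓ N := by
        refine Subgroup.mem_inf.mpr ⟨⟨_, rfl⟩, ?_⟩
        rw [h4]
        exact mul_mem (Subgroup.Normal.conj_mem inferInstance _ hn₀N _) (inv_mem hn₀N)
      rw [hbot, Subgroup.mem_bot, h4] at h5
      rw [mul_inv_eq_one, mul_inv_eq_iff_eq_mul] at h5
      exact h5
    have hcen' : n₀ ∈ N ⊓ Subgroup.center C := by
      refine Subgroup.mem_inf.mpr ⟨hn₀N, ?_⟩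
      rw [Subgroup.mem_center_iff]
      intro g
      have hg : g ∈ Λ.range ⊔ N := by rw [hsup]; trivial
      rw [Subgroup.mem_sup_of_normal_right] at hg
      obtain ⟨_, ⟨j, rfl⟩, n, hn, rfl⟩ := hg
      rw [mul_assoc, hab n hn n₀ hn₀N, ← mul_assoc, hcomm j, mul_assoc]
    rw [hcen, Subgroup.mem_bot] at hcen'
    exact hn₀ hcen'

end W

end Pool.Agent.W_MP_84bb83_al
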