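import Pool.Agent.W_MP_84bb83_al.Sat2

set_option autoImplicit false

/-!
# The saturation step for a minimal normal subgroup inside the core
-/

namespace Pool.Agent.W_MP_84bb83_al

open Function

variable {F M H : Cls} (hF : QCl F) (hsat : ∀ (G : Type) [Group G] [Finite G], F (G ⧸ frattini G) → F G)
  (hM : IsForm M) (hH : IsForm H) (hd : Dec F M H)
include hF hsat hM hH hd

/-- Theorem S -/
theorem thmS {A : Type} [Group A] [Finite A] (C N : Subgroup A) [C.Normal] [N.Normal] (hNC : N ≤ C)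
    (hfr : N ≤ frattini A) (hne : N ≠ ⊥)
    (hmin : ∀ N' : Subgroup A, N'.Normal → N' ≤ N → N' = ⊥ ∨ N' = N)
    (hab : ∀ a ∈ N, ∀ b ∈ N, a * b = b * a) {p : ℕ} (hp : p.Prime) (hexp : ∀ a ∈ N, a ^ p = 1)
    (hCR : Rc H C) (hCM : QIn M (N.subgroupOf C)) (hsol : Sol H (A ⧸ C)) : M C := by
  classical
  obtain ⟨hNcn, hCM⟩ := hCM
  set Nc := N.subgroupOf C with hNc
  have hmemNc : ∀ x : C, x ∈ Nc ↔ (x : A) ∈ N := fun x => Subgroup.mem_subgroupOf
  have hg : Gc F H (C ⧸ Nc) := gc_of hM hH hd hCM (hCR.surj _ (QuotientGroup.mk'_surjective Nc))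
  have habc : ∀ a ∈ Nc, ∀ b ∈ Nc, a * b = b * a := fun a ha b hb =>
    Subtype.ext (hab _ ((hmemNc a).mp ha) _ ((hmemNc b).mp hb))
  have hexpc : ∀ a ∈ Nc, a ^ p = 1 := fun a ha => Subtype.ext (hexp _ ((hmemNc a).mp ha))
  have hNcne : Nc ≠ ⊥ := by
    intro h
    apply hne
    rw [eq_bot_iff]
    intro x hx
    have : (⟨x, hNC hx⟩ : C) ∈ Nc := (hmemNc _).mpr hx
    rw [h, Subgroup.mem_bot] at this
    exact congrArg Subtype.val this
  -- invariant subgroups
  have hinv : ∀ N' : Subgroup C, (∀ a : A, N'.map (MulAut.conjNormal a : MulAut C).toMonoidHom ≤ N') →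
      N' ≤ Nc → N' = ⊥ ∨ N' = Nc := by
    intro N' h1 h2
    have hn : (N'.map C.subtype).Normal := by
      constructor
      rintro _ ⟨x, hx, rfl⟩ g
      exact ⟨MulAut.conjNormal g x, h1 g ⟨x, hx, rfl⟩, rfl⟩
    have hle : N'.map C.subtype ≤ N := by
      rintro _ ⟨x, hx, rfl⟩
      exact (hmemNc x).mp (h2 hx)
    rcases hmin _ hn hle with h | h
    · left
      exact (Subgroup.map_eq_bot_iff_of_injective _ (Subgroup.subtype_injective C)).mp h
    · right
      apply le_antisymm h2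
      intro x hx
      have h3 := (hmemNc x).mp hx
      rw [← h] at h3
      obtain ⟨y, hy, hyx⟩ := h3
      have : y = x := Subtype.ext hyx
      rw [← this]
      exact hy
  have hNcinv : ∀ a : A, Nc.map (MulAut.conjNormal a : MulAut C).toMonoidHom ≤ Nc := by
    rintro a _ ⟨x, hx, rfl⟩
    rw [hmemNc]
    exact Subgroup.Normal.conj_mem inferInstance _ ((hmemNc x).mp hx) a
  have hD1 : ∀ J : Subgroup C, M J → J ⊔ Nc = ⊤ → J ⊓ Nc ≠ ⊥ → M C := by
    intro J h1 h2 h3
    exact lemmaD1 hM (MulAut.conjNormal : A →* MulAut C) Nc hNcinv habc (fun N' _ h4 h5 => hinv N' h4 h5) J h1 h2 h3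
  -- first supplement
  obtain ⟨J, hJM, hJsup⟩ : ∃ J : Subgroup C, M J ∧ J ⊔ Nc = ⊤ := by
    obtain ⟨X, _, _, f, hX, hf⟩ := hg
    have hRXn : (res H X).Normal := hH.res_normal X
    obtain ⟨Y, _, _, ε, ψ, hY, hε, hc⟩ := exists_lift hF hsat (res H X) f (QuotientGroup.mk' Nc) hf
      (QuotientGroup.mk'_surjective Nc) hX
    obtain ⟨J, f', hf', hJ', h1, h2⟩ := image_res hH ε hε (res H X) le_rfl ψ
    refine ⟨J, hM.surj f' hf' ((hd Y).mp hY), ?_⟩
    rw [eq_top_iff]
    intro c _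
    obtain ⟨r, hr⟩ := hf (QuotientGroup.mk' Nc c)
    obtain ⟨e, he, heJ⟩ := h1 r r.2
    have h3 := hc e
    have h4 : (⟨ε e, e.2⟩ : res H X) = r := Subtype.ext he
    rw [h4, hr] at h3
    have h5 : (ψ e)⁻¹ * c ∈ Nc := QuotientGroup.eq.mp h3
    have : c = ψ e * ((ψ e)⁻¹ * c) := by group
    rw [this]
    exact Subgroup.mul_mem_sup heJ h5
  by_cases h0 : J ⊓ Nc = ⊥
  swap
  · exact hD1 J hJM hJsup h0
  by_cases hR : RcP H p
  · -- case (2b)
    exfalso
    have hfact : Fact p.Prime := ⟨hp⟩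
    have hcop : (Nat.card N).Coprime C.index := by
      have h1 : IsPGroup p N := fun g => ⟨1, by
        rw [pow_one]; exact Subtype.ext (hexp _ g.2)⟩
      obtain ⟨k, hk⟩ := IsPGroup.iff_card.mp h1
      rw [hk]
      apply Nat.Coprime.pow_left
      rw [hp.coprime_iff_not_dvd]
      intro h2
      exact hsol.2 p hp h2 hR
    obtain ⟨K, hK1, hK2⟩ := exists_compl N (J.map C.subtype) C hab (by
      rw [eq_bot_iff]
      rintro _ ⟨⟨x, hx, rfl⟩, hxN⟩
      have h1 : x ∈ J ⊓ Nc := Subgroup.mem_inf.mpr ⟨hx, (hmemNc x).mpr hxN⟩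
      rw [h0, Subgroup.mem_bot] at h1
      rw [h1]
      exact one_mem _) (by
      apply le_antisymm
      · apply sup_le hNC
        rintro _ ⟨x, hx, rfl⟩
        exact x.2
      · intro x hx
        have h1 : (⟨x, hx⟩ : C) ∈ J ⊔ Nc := by rw [hJsup]; trivial
        rw [Subgroup.mem_sup_of_normal_right] at h1
        obtain ⟨y, hy, z, hz, hyz⟩ := h1
        have h2 : x = (y : A) * (z : A) := (congrArg Subtype.val hyz).symm
        rw [h2]
        exact mul_mem (Subgroup.mem_sup_right ⟨y, hy, rfl⟩) (Subgroup.mem_sup_left ((hmemNc z).mp hz))) hcop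
    have hKtop : K = ⊤ := by
      apply frattini_nongenerating
      rw [eq_top_iff, ← hK1]
      exact sup_le_sup_left hfr K
    rw [hKtop, top_inf_eq] at hK2
    exact hne hK2
  -- case (2a)
  have hcen : Nc ⊓ Subgroup.center C = ⊥ := by
    rcases hinv (Nc ⊓ Subgroup.center C) (by
      rintro a _ ⟨x, hx, rfl⟩
      refine Subgroup.mem_inf.mpr ⟨hNcinv a ⟨x, (Subgroup.mem_inf.mp hx).1, rfl⟩, ?_⟩
      have h1 := (Subgroup.mem_inf.mp hx).2
      rw [Subgroup.mem_center_iff] at h1 ⊢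
      intro g
      obtain ⟨g, rfl⟩ := (MulAut.conjNormal a : MulAut C).surjective g
      show (MulAut.conjNormal a : MulAut C) g * (MulAut.conjNormal a : MulAut C) x =
        (MulAut.conjNormal a : MulAut C) x * (MulAut.conjNormal a : MulAut C) g
      rw [← map_mul, ← map_mul, h1 g]) inf_le_left with h | h
    · exact h
    · exfalso
      have hle : Nc ≤ Subgroup.center C := by rw [← h]; exact inf_le_right
      -- `J` is normal
      have hJn : J.Normal := by
        constructor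
        intro j hj g
        have hg : g ∈ J ⊔ Nc := by rw [hJsup]; trivial
        rw [Subgroup.mem_sup_of_normal_right] at hg
        obtain ⟨y, hy, z, hz, rfl⟩ := hg
        have h1 := (Subgroup.mem_center_iff.mp (hle hz)) j
        have h2 : y * z * j * (y * z)⁻¹ = y * j * y⁻¹ := by
          calc y * z * j * (y * z)⁻¹ = y * (z * j) * z⁻¹ * y⁻¹ := by group
            _ = y * (j * z) * z⁻¹ * y⁻¹ := by rw [h1]
            _ = _ := by group
        rw [h2]
        exact mul_mem (mul_mem hy hj) (inv_mem hy)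
      have hs := surj_of_sup Nc J (by rw [sup_comm]; exact hJsup)
      have hc' : ∀ a b : C ⧸ J, a * b = b * a := by
        intro a b
        obtain ⟨a, rfl⟩ := hs a
        obtain ⟨b, rfl⟩ := hs b
        rw [← map_mul, ← map_mul]
        congr 1
        exact Subtype.ext (habc _ a.2 _ b.2)
      have he' : ∀ a : C ⧸ J, a ^ p = 1 := by
        intro a
        obtain ⟨a, rfl⟩ := hs a
        rw [← map_pow]
        have : a ^ p = 1 := Subtype.ext (hexpc _ a.2)
        rw [this, map_one]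
      have hnt : Nontrivial (C ⧸ J) := by
        rw [QuotientGroup.nontrivial_iff]
        rintro rfl
        rw [top_inf_eq] at h0
        exact hNcne h0
      obtain ⟨K, hKn, hK⟩ := exists_quot_prime hc' p hp he'
      exact hR ⟨(C ⧸ J) ⧸ K, inferInstance, hK, (hCR.surj _ (QuotientGroup.mk'_surjective J)).surj _
        (QuotientGroup.mk'_surjective K)⟩
  obtain ⟨a, ha⟩ : ∃ a : A, ∀ n ∈ Nc, ¬ ∀ j ∈ J, n * j * n⁻¹ ∈ J.map (MulAut.conjNormal a : MulAut C).toMonoidHom := by
    by_contra hcon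
    push Not at hcon
    -- the normalizer of `J`
    have h1 : Subgroup.normalizer ((J.map C.subtype : Subgroup A) : Set A) ⊔ frattini A = ⊤ := by
      rw [eq_top_iff]
      intro a _
      obtain ⟨n, hn, hnj⟩ := hcon a
      have h2 : a⁻¹ * (n : A) ∈ Subgroup.normalizer ((J.map C.subtype : Subgroup A) : Set A) := by
        apply Subgroup.mem_normalizer_fintype
        rintro _ ⟨j, hj, rfl⟩
        obtain ⟨j', hj', hjj⟩ := hnj j hj
        refine ⟨j', hj', ?_⟩
        have h3 : a * (j' : A) * a⁻¹ = (n : A) * (j : A) * (n : A)⁻¹ := congrArg Subtype.val hjj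
        show (j' : A) = a⁻¹ * (n : A) * (j : A) * (a⁻¹ * (n : A))⁻¹
        calc (j' : A) = a⁻¹ * (a * (j' : A) * a⁻¹) * a := by group
          _ = a⁻¹ * ((n : A) * (j : A) * (n : A)⁻¹) * a := by rw [h3]
          _ = _ := by group
      have h3 : a = (n : A) * (a⁻¹ * (n : A))⁻¹ := by group
      rw [h3]
      exact mul_mem (Subgroup.mem_sup_right (hfr ((hmemNc n).mp hn))) (Subgroup.mem_sup_left (inv_mem h2))
    have h2 := frattini_nongenerating h1
    have h3 : (J.map C.subtype).Normal := Subgroup.normalizer_eq_top_iff.mp h2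
    apply hNcne
    rw [eq_bot_iff, ← hcen]
    apply le_inf le_rfl
    intro n hn
    rw [Subgroup.mem_center_iff]
    have hJcomm : ∀ j ∈ J, j * n = n * j := by
      intro j hj
      have h4 : n * j * n⁻¹ ∈ J := by
        obtain ⟨y, hy, hyx⟩ := h3.conj_mem j ⟨j, hj, rfl⟩ n
        have : y = n * j * n⁻¹ := Subtype.ext hyx
        rw [← this]
        exact hy
      have h5 : n * j * n⁻¹ * j⁻¹ ∈ J ⊓ Nc := by
        refine Subgroup.mem_inf.mpr ⟨mul_mem h4 (inv_mem hj), ?_⟩
        have : n * j * n⁻¹ * j⁻¹ = n * (j * n⁻¹ * j⁻¹) := by group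
        rw [this]
        exact mul_mem hn (hNcn.conj_mem _ (inv_mem hn) j)
      rw [h0, Subgroup.mem_bot, mul_inv_eq_one, mul_inv_eq_iff_eq_mul] at h5
      exact h5.symm
    intro g
    have hg : g ∈ J ⊔ Nc := by rw [hJsup]; trivial
    rw [Subgroup.mem_sup_of_normal_right] at hg
    obtain ⟨y, hy, z, hz, rfl⟩ := hg
    rw [mul_assoc, habc z hz n hn, ← mul_assoc, hJcomm y hy, mul_assoc]
  -- the automorphism
  obtain ⟨θ, hθ1, hθ2, hθ3, hθ4⟩ := exists_theta Nc J (J.map (MulAut.conjNormal a : MulAut C).toMonoidHom) habc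
    hexpc hJsup h0 (by
      rw [eq_top_iff]
      intro x _
      obtain ⟨x, rfl⟩ := (MulAut.conjNormal a : MulAut C).surjective x
      have hx : x ∈ J ⊔ Nc := by rw [hJsup]; trivial
      rw [Subgroup.mem_sup_of_normal_right] at hx
      obtain ⟨y, hy, z, hz, rfl⟩ := hx
      rw [map_mul]
      exact Subgroup.mul_mem_sup ⟨y, hy, rfl⟩ (hNcinv a ⟨z, hz, rfl⟩)) (by
      rw [eq_bot_iff]
      rintro _ ⟨⟨x, hx, rfl⟩, hxN⟩
      have h1 : x ∈ J ⊓ Nc := by
        refine Subgroup.mem_inf.mpr ⟨hx, ?_⟩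
        have h2 : ((MulAut.conjNormal a : MulAut C) x : A) ∈ N := (hmemNc _).mp hxN
        rw [MulAut.conjNormal_apply] at h2
        rw [hmemNc]
        have h3 := Subgroup.Normal.conj_mem (inferInstance : N.Normal) _ h2 a⁻¹
        have h4 : a⁻¹ * (a * (x : A) * a⁻¹) * a⁻¹⁻¹ = x := by group
        rwa [h4] at h3
      rw [h0, Subgroup.mem_bot] at h1
      rw [h1, map_one]
      exact one_mem _)
  have hθn : ∀ n ∈ Nc, θ ≠ MulAut.conj n := by
    intro n hn h
    apply ha n hn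
    intro j hj
    have h1 := hθ4 j hj
    rw [h, MulAut.conj_apply] at h1
    exact h1
  have hSolZ : Sol H (Subgroup.zpowers θ) := by
    refine ⟨inferInstance, ?_⟩
    intro q hq hqd
    rw [Nat.card_zpowers] at hqd
    have h1 : orderOf θ ∣ p := orderOf_dvd_of_pow_eq_one hθ3
    have h2 : q ∣ p := hqd.trans h1
    rw [(Nat.prime_dvd_prime_iff_eq hq hp).mp h2]
    exact hR
  obtain ⟨J', hJ'M, hJ'1, hJ'2⟩ := lemmaW hF hsat hM hH hd Nc habc hcen θ hθ1 hθ2 hθn (hSolZ.mem hH) hg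
  exact hD1 J' hJ'M hJ'1 hJ'2

end Pool.Agent.W_MP_84bb83_al
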