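import Pool.Agent.W_MP_84bb83_al.Prod

set_option autoImplicit false

/-!
# Extension closure of `Rc`, the largest normal `Rc`-subgroup
-/

namespace Pool.Agent.W_MP_84bb83_al

open Function
open scoped commutatorElement

/-- maximal proper normal subgroups -/
structure IsMaxN {B : Type} [Group B] (K : Subgroup B) : Prop where
  normal : K.Normal
  ne_top : K ≠ ⊤
  max : ∀ K' : Subgroup B, K'.Normal → K ≤ K' → K' ≠ ⊤ → K' ≤ K

lemma exists_maxN {B : Type} [Group B] [Finite B] (J : Subgroup B) (hJn : J.Normal) (hJ : J ≠ ⊤) :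
    ∃ K, J ≤ K ∧ IsMaxN K := by
  have hne : ({K : Subgroup B | J ≤ K ∧ K.Normal ∧ K ≠ ⊤}).Nonempty := ⟨J, le_rfl, hJn, hJ⟩
  obtain ⟨K, hK⟩ := (Set.toFinite {K : Subgroup B | J ≤ K ∧ K.Normal ∧ K ≠ ⊤}).exists_maximal hne
  refine ⟨K, hK.1.1, ⟨hK.1.2.1, hK.1.2.2, ?_⟩⟩
  intro K' hK'n hle hK'
  exact hK.2 ⟨hK.1.1.trans hle, hK'n, hK'⟩ hle

lemma IsMaxN.simple {B : Type} [Group B] {K : Subgroup B} [K.Normal] (hK : IsMaxN K) :
    IsSimpleGroup (B ⧸ K) := by
  have hnt : Nontrivial (B ⧸ K) := by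
    rw [QuotientGroup.nontrivial_iff]
    exact hK.ne_top
  refine { eq_bot_or_eq_top_of_normal := ?_ }
  intro N hN
  by_cases h : N.comap (QuotientGroup.mk' K) = ⊤
  · right
    rw [eq_top_iff]
    intro x _
    obtain ⟨x, rfl⟩ := QuotientGroup.mk'_surjective K x
    have : x ∈ N.comap (QuotientGroup.mk' K) := by rw [h]; trivial
    exact this
  · left
    rw [eq_bot_iff]
    intro x hx
    obtain ⟨x, rfl⟩ := QuotientGroup.mk'_surjective K x
    have h1 : K ≤ N.comap (QuotientGroup.mk' K) := by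
      intro y hy
      rw [Subgroup.mem_comap, QuotientGroup.mk'_apply, (QuotientGroup.eq_one_iff y).mpr hy]
      exact one_mem _
    have h2 := hK.max _ (hN.comap _) h1 h
    rw [Subgroup.mem_bot, QuotientGroup.mk'_apply, QuotientGroup.eq_one_iff]
    exact h2 hx

/-- a simple group is of prime order or perfect -/
lemma simple_cases {S : Type} [Group S] [IsSimpleGroup S] : (Nat.card S).Prime ∨ commutator S = ⊤ := by
  rcases Subgroup.Normal.eq_bot_or_eq_top (inferInstance : (commutator S).Normal) with h | h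
  · left
    have hc : ∀ a b : S, a * b = b * a := by
      intro a b
      have h1 : ⁅a, b⁆ ∈ commutator S := Subgroup.commutator_mem_commutator (Subgroup.mem_top a) (Subgroup.mem_top b)
      rw [h, Subgroup.mem_bot, commutatorElement_eq_one_iff_mul_comm] at h1
      exact h1
    let _ : CommGroup S := { (inferInstance : Group S) with mul_comm := hc }
    exact IsSimpleGroup.prime_card
  · right
    exact h

lemma surj_of_sup {B : Type} [Group B] (J K : Subgroup B) [K.Normal] (h : J ⊔ K = ⊤) :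
    Surjective ((QuotientGroup.mk' K).comp J.subtype) := by
  intro x
  obtain ⟨x, rfl⟩ := QuotientGroup.mk'_surjective K x
  have hx : x ∈ J ⊔ K := by rw [h]; trivial
  rw [Subgroup.mem_sup_of_normal_right] at hx
  obtain ⟨y, hy, z, hz, rfl⟩ := hx
  refine ⟨⟨y, hy⟩, ?_⟩
  show ((y : B) : B ⧸ K) = ((y * z : B) : B ⧸ K)
  rw [QuotientGroup.mk_mul, (QuotientGroup.eq_one_iff z).mpr hz, mul_one]

lemma surj_prod_of_sup {B : Type} [Group B] (N K : Subgroup B) [N.Normal] [K.Normal] (h : N ⊔ K = ⊤) :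
    Surjective ((QuotientGroup.mk' N).prod (QuotientGroup.mk' K)) := by
  rintro ⟨x, y⟩
  obtain ⟨x, rfl⟩ := QuotientGroup.mk'_surjective N x
  obtain ⟨y, rfl⟩ := QuotientGroup.mk'_surjective K y
  have hx : x⁻¹ * y ∈ N ⊔ K := by rw [h]; trivial
  rw [Subgroup.mem_sup_of_normal_right] at hx
  obtain ⟨n, hn, k, hk, hnk⟩ := hx
  refine ⟨x * n, ?_⟩
  apply Prod.ext
  · show ((x * n : B) : B ⧸ N) = (x : B ⧸ N)
    rw [QuotientGroup.mk_mul, (QuotientGroup.eq_one_iff n).mpr hn, mul_one]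
  · show ((x * n : B) : B ⧸ K) = (y : B ⧸ K)
    rw [QuotientGroup.eq]
    have : (x * n)⁻¹ * y = k := by
      have h1 : y = x * (n * k) := by rw [hnk]; group
      rw [h1]; group
    rw [this]
    exact hk

section rc

variable {H : Cls} (hH : IsForm H)
include hH

lemma rc_prod_simple {B S : Type} [Group B] [Group S] [IsSimpleGroup S] (hB : Rc H B) (hS : Rc H S) :
    Rc H (B × S) := by
  rcases simple_cases (S := S) with h | h
  · exact rc_prod_prime hH hB hS h
  · exact rc_prod_perfect hH hB hS h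

/-- Lemma 3 -/
theorem rc_of_maxN {B : Type} [Group B] [Finite B] (h : ∀ K : Subgroup B, IsMaxN K → QIn (Rc H) K) : Rc H B := by
  have hne : ({N : Subgroup B | QIn (Rc H) N}).Nonempty := ⟨⊤, qin_Rc_top⟩
  obtain ⟨N, hN⟩ := (Set.toFinite {N : Subgroup B | QIn (Rc H) N}).exists_minimal hne
  obtain ⟨hNn, hNR⟩ := hN.1
  obtain ⟨J, hJn, hJR, hJN⟩ := rc_supplement hH N hNR
  by_cases hJ : J = ⊤
  · subst hJ
    exact hJR.surj (⊤ : Subgroup B).subtype (fun b => ⟨⟨b, trivial⟩, rfl⟩)
  · exfalso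
    obtain ⟨K, hJK, hK⟩ := exists_maxN J hJn hJ
    obtain ⟨hKn, hKR⟩ := h K hK
    have hs := hK.simple
    have hNK : N ⊔ K = ⊤ := by
      rw [eq_top_iff, ← hJN, sup_comm]
      exact sup_le_sup_left hJK N
    have h1 := (qcl_Rc H).qin_ker _ (surj_prod_of_sup N K hNK) (rc_prod_simple hH hNR hKR)
    have h2 : ((QuotientGroup.mk' N).prod (QuotientGroup.mk' K)).ker ≤ N ⊓ K := by
      rw [MonoidHom.ker_prod, QuotientGroup.ker_mk', QuotientGroup.ker_mk']
    have h3 : QIn (Rc H) (N ⊓ K) := (qcl_Rc H).mono h1 h2 inferInstance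
    have h4 := hN.2 h3 inf_le_left
    have h5 : N ≤ K := h4.trans inf_le_right
    apply hK.ne_top
    rw [← hNK]
    exact (sup_eq_right.mpr h5).symm

/-- extension closure -/
theorem rc_ext {B : Type} [Group B] [Finite B] (N : Subgroup B) [N.Normal] (h1 : Rc H N) (h2 : Rc H (B ⧸ N)) :
    Rc H B := by
  apply rc_of_maxN hH
  intro K hK
  have hKn := hK.normal
  by_cases hNK : N ≤ K
  · exact (qcl_Rc H).mono ⟨inferInstance, h2⟩ hNK hKn
  · have h3 : N ⊔ K = ⊤ := by
      by_contra hcon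
      exact hNK (le_sup_left.trans (hK.max _ inferInstance le_sup_right hcon))
    exact ⟨hKn, h1.surj _ (surj_of_sup N K h3)⟩

omit hH in
lemma Rc.subgroupOf {A : Type} [Group A] (N B : Subgroup A) (hle : N ≤ B) (h : Rc H N) :
    Rc H (N.subgroupOf B) := by
  let g : N →* N.subgroupOf B := {
    toFun := fun x => ⟨⟨x.1, hle x.2⟩, x.2⟩
    map_one' := rfl
    map_mul' := fun _ _ => rfl }
  exact h.surj g (fun y => ⟨⟨y.1.1, y.2⟩, rfl⟩)

/-- join of two normal `Rc`-subgroups -/
theorem rc_sup_aux {A : Type} [Group A] [Finite A] (B N₁ N₂ : Subgroup A) (hn₁ : N₁.Normal) (hn₂ : N₂.Normal)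
    (hle₁ : N₁ ≤ B) (hle₂ : N₂ ≤ B) (hsup : B ≤ N₁ ⊔ N₂)
    (h1 : Rc H N₁) (h2 : Rc H N₂) : Rc H B := by
  apply rc_of_maxN hH
  intro K hK
  have hKn := hK.normal
  have key : ∀ N : Subgroup A, N.Normal → N ≤ B → Rc H N → ¬ (N.subgroupOf B ≤ K) → QIn (Rc H) K := by
    intro N hN hle hR hnot
    have h3 : N.subgroupOf B ⊔ K = ⊤ := by
      by_contra hcon
      have := hN.subgroupOf B
      exact hnot (le_sup_left.trans (hK.max _ inferInstance le_sup_right hcon))
    have h4 : Rc H (N.subgroupOf B) := hR.subgroupOf N B hle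
    exact ⟨hKn, h4.surj _ (surj_of_sup _ K h3)⟩
  by_cases hc1 : N₁.subgroupOf B ≤ K
  · by_cases hc2 : N₂.subgroupOf B ≤ K
    · exfalso
      apply hK.ne_top
      rw [eq_top_iff]
      rintro ⟨x, hx⟩ _
      have hx' := hsup hx
      rw [Subgroup.mem_sup_of_normal_right] at hx'
      obtain ⟨y, hy, z, hz, rfl⟩ := hx'
      have h3 : (⟨y, hle₁ hy⟩ : B) ∈ K := hc1 (by rw [Subgroup.mem_subgroupOf]; exact hy)
      have h4 : (⟨z, hle₂ hz⟩ : B) ∈ K := hc2 (by rw [Subgroup.mem_subgroupOf]; exact hz)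
      exact mul_mem h3 h4
    · exact key N₂ hn₂ hle₂ h2 hc2
  · exact key N₁ hn₁ hle₁ h1 hc1

theorem rc_sup {A : Type} [Group A] [Finite A] (N₁ N₂ : Subgroup A) (hn₁ : N₁.Normal) (hn₂ : N₂.Normal)
    (h1 : Rc H N₁) (h2 : Rc H N₂) : Rc H (N₁ ⊔ N₂ : Subgroup A) :=
  rc_sup_aux hH _ N₁ N₂ hn₁ hn₂ le_sup_left le_sup_right le_rfl h1 h2

end rc

/-- the largest normal `Rc`-subgroup -/
def core (H : Cls) (A : Type) [Group A] : Subgroup A := sSup {N | N.Normal ∧ Rc H N}

lemma le_core {H : Cls} {A : Type} [Group A] {N : Subgroup A} (hn : N.Normal) (h : Rc H N) : N ≤ core H A :=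
  le_sSup ⟨hn, h⟩

section core

variable {H : Cls} (hH : IsForm H)
include hH

theorem core_spec (A : Type) [Group A] [Finite A] : (core H A).Normal ∧ Rc H (core H A) := by
  have hne : ({N : Subgroup A | N.Normal ∧ Rc H N}).Nonempty := ⟨⊥, inferInstance, Rc.of_subsingleton⟩
  obtain ⟨N, hN⟩ := (Set.toFinite {N : Subgroup A | N.Normal ∧ Rc H N}).exists_maximal hne
  have : core H A = N := by
    apply le_antisymm
    · apply sSup_le
      intro K hK
      have h1 : (N ⊔ K).Normal ∧ Rc H (N ⊔ K : Subgroup A) :=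
        ⟨by have := hN.1.1; have := hK.1; infer_instance, rc_sup hH N K hN.1.1 hK.1 hN.1.2 hK.2⟩
      exact le_sup_right.trans (hN.2 h1 le_sup_left)
    · exact le_core hN.1.1 hN.1.2
  rw [this]
  exact hN.1

lemma core_normal (A : Type) [Group A] [Finite A] : (core H A).Normal := (core_spec hH A).1

lemma core_rc (A : Type) [Group A] [Finite A] : Rc H (core H A) := (core_spec hH A).2

omit hH in
lemma map_rc {A B : Type} [Group A] [Group B] (f : A →* B) (N : Subgroup A) (h : Rc H N) : Rc H (N.map f) := by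
  refine h.surj ((f.comp N.subtype).codRestrict (N.map f) (fun x => ⟨x, x.2, rfl⟩)) ?_
  rintro ⟨y, ⟨x, hx, rfl⟩⟩
  exact ⟨⟨x, hx⟩, rfl⟩

lemma core_char (A : Type) [Group A] [Finite A] : (core H A).Characteristic := by
  rw [Subgroup.characteristic_iff_map_le]
  intro φ
  apply le_core
  · exact (core_normal hH A).map _ φ.surjective
  · exact map_rc _ _ (core_rc hH A)

/-- the image of the core of a normal subgroup -/
lemma map_core_le {A : Type} [Group A] [Finite A] (B : Subgroup A) [B.Normal] :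
    (core H B).map B.subtype ≤ core H A := by
  have h1 := core_char hH B
  apply le_core
  · exact ConjAct.normal_of_characteristic_of_normal
  · exact map_rc _ _ (core_rc hH B)

/-- Lemma 5 -/
lemma le_core_sup {A : Type} [Group A] [Finite A] (N B : Subgroup A) [N.Normal] [B.Normal]
    (h : QIn (Rc H) (N.subgroupOf B)) : B ≤ core H A ⊔ N := by
  obtain ⟨hn, h⟩ := h
  obtain ⟨J, hJn, hJR, hJN⟩ := rc_supplement hH (N.subgroupOf B) h
  have h1 : J.map B.subtype ≤ core H A := (Subgroup.map_mono (le_core hJn hJR)).trans (map_core_le hH B)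
  intro b hb
  have h2 : (⟨b, hb⟩ : B) ∈ J ⊔ N.subgroupOf B := by rw [hJN]; trivial
  have h3 : b ∈ (J ⊔ N.subgroupOf B).map B.subtype := ⟨⟨b, hb⟩, h2, rfl⟩
  rw [Subgroup.map_sup] at h3
  have h4 : (N.subgroupOf B).map B.subtype ≤ N := by
    rw [Subgroup.subgroupOf_map_subtype]; exact inf_le_left
  exact (sup_le_sup h1 h4) h3

end core

section sol

/-- the cyclic group of order `p` is in `Rc` -/
def RcP (H : Cls) (p : ℕ) : Prop := ∃ (S : Type) (_ : Group S), Nat.card S = p ∧ Rc H S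

lemma RcP.rc {H : Cls} {p : ℕ} (h : RcP H p) (hp : p.Prime) {S : Type} [Group S] (hS : Nat.card S = p) :
    Rc H S := by
  obtain ⟨T, _, hT, hR⟩ := h
  have : Fact p.Prime := ⟨hp⟩
  exact hR.surj (mulEquivOfPrimeCardEq (p := p) hT hS).toMonoidHom (MulEquiv.surjective _)

/-- solvable groups whose order is divisible only by primes `p` with `C_p` not in `Rc` -/
def Sol (H : Cls) : Cls := fun G _ =>
  Group.IsSolvable G ∧ ∀ p : ℕ, p.Prime → p ∣ Nat.card G → ¬ RcP H p

lemma exists_prime_quot (G : Type) [Group G] [Finite G] [Nontrivial G] [Group.IsSolvable G] :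
    ∃ (K : Subgroup G) (_ : K.Normal), (Nat.card (G ⧸ K)).Prime := by
  obtain ⟨K, -, hK⟩ := exists_maxN (⊥ : Subgroup G) inferInstance bot_ne_top
  have hKn := hK.normal
  have := hK.simple
  refine ⟨K, hKn, ?_⟩
  rcases simple_cases (S := G ⧸ K) with h | h
  · exact h
  · exfalso
    have h1 := Group.IsSolvable.commutator_lt_top_of_nontrivial (G ⧸ K)
    rw [h] at h1
    exact lt_irrefl _ h1

variable {H : Cls}

lemma Sol.surj {A B : Type} [Group A] [Group B] [Finite A] (f : A →* B) (hf : Surjective f) (h : Sol H A) :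
    Sol H B := by
  obtain ⟨h1, h2⟩ := h
  refine ⟨Group.isSolvable_of_surjective hf, ?_⟩
  intro p hp hpd
  exact h2 p hp (hpd.trans (Subgroup.card_dvd_of_surjective f hf))

lemma Sol.inj {A B : Type} [Group A] [Group B] [Finite B] (f : A →* B) (hf : Injective f) (h : Sol H B) :
    Sol H A := by
  obtain ⟨h1, h2⟩ := h
  refine ⟨Group.isSolvable_of_isSolvable_injective hf, ?_⟩
  intro p hp hpd
  exact h2 p hp (hpd.trans (Subgroup.card_dvd_of_injective f hf))

lemma Sol.ext {A : Type} [Group A] (N : Subgroup A) [N.Normal] (h1 : Sol H N) (h2 : Sol H (A ⧸ N)) :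
    Sol H A := by
  refine ⟨(Group.isSolvable_iff_subgroup_quotient N).mpr ⟨h1.1, h2.1⟩, ?_⟩
  intro p hp hpd
  rw [Subgroup.card_eq_card_quotient_mul_card_subgroup N, hp.dvd_mul] at hpd
  rcases hpd with h | h
  · exact h2.2 p hp h
  · exact h1.2 p hp h

/-- a group in `Sol` and `Rc` is trivial -/
lemma Sol.trivial {A : Type} [Group A] (h : Sol H A) (hR : Rc H A) : Subsingleton A := by
  have hfin := hR.finite
  by_contra hcon
  rw [not_subsingleton_iff_nontrivial] at hcon
  have := h.1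
  obtain ⟨K, hKn, hK⟩ := exists_prime_quot A
  exact h.2 _ hK (Subgroup.card_quotient_dvd_card K) ⟨A ⧸ K, inferInstance, rfl,
    hR.surj (QuotientGroup.mk' K) (QuotientGroup.mk'_surjective K)⟩

/-- Lemma 6 -/
lemma le_of_sol {A : Type} [Group A] [Finite A] (B : Subgroup A) [B.Normal] (hB : Sol H (A ⧸ B)) (D : Subgroup A)
    (hD : Rc H D) : D ≤ B := by
  have h1 : Rc H (D.map (QuotientGroup.mk' B)) := map_rc _ _ hD
  have h2 : Sol H (D.map (QuotientGroup.mk' B)) := Sol.inj (D.map (QuotientGroup.mk' B)).subtype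
    (Subgroup.subtype_injective _) hB
  have h3 := h2.trivial h1
  intro d hd
  have h4 : (⟨QuotientGroup.mk' B d, ⟨d, hd, rfl⟩⟩ : D.map (QuotientGroup.mk' B)) = 1 := Subsingleton.elim _ _
  have h5 : QuotientGroup.mk' B d = 1 := congrArg Subtype.val h4
  exact (QuotientGroup.eq_one_iff d).mp h5

/-- groups in `Sol` are in `H` -/
lemma Sol.mem (hH : IsForm H) {A : Type} [Group A] [Finite A] (h : Sol H A) : H A := by
  rw [← hH.res_eq_bot]
  have h1 : Sol H (res H A) := Sol.inj _ (Subgroup.subtype_injective _) h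
  have h2 : Rc H (res H A) := ⟨A, inferInstance, inferInstance, MonoidHom.id _, surjective_id⟩
  have h3 := h1.trivial h2
  exact Subgroup.eq_bot_of_subsingleton _

/-- elementary abelian groups -/
lemma rc_elem (hH : IsForm H) {A : Type} [Group A] [Finite A] (hc : ∀ a b : A, a * b = b * a) {p : ℕ}
    (hp : p.Prime) (hexp : ∀ a : A, a ^ p = 1) (hR : RcP H p) : Rc H A := by
  apply rc_of_maxN hH
  intro K hK
  have hKn := hK.normal
  refine ⟨hKn, ?_⟩
  have := hK.simple
  have hc' : ∀ a b : A ⧸ K, a * b = b * a := by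
    intro a b
    obtain ⟨a, rfl⟩ := QuotientGroup.mk_surjective a
    obtain ⟨b, rfl⟩ := QuotientGroup.mk_surjective b
    rw [← QuotientGroup.mk_mul, ← QuotientGroup.mk_mul, hc]
  apply hR.rc hp
  rcases simple_cases (S := A ⧸ K) with h | h
  · have h0 : Fact (Nat.card (A ⧸ K)).Prime := ⟨h⟩
    obtain ⟨x, hx⟩ := exists_ne (1 : A ⧸ K)
    have h1 : orderOf x ∣ Nat.card (A ⧸ K) := orderOf_dvd_natCard x
    have h2 : orderOf x ∣ p := by
      apply orderOf_dvd_of_pow_eq_one
      obtain ⟨x, rfl⟩ := QuotientGroup.mk_surjective x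
      rw [← QuotientGroup.mk_pow, hexp]
      rfl
    have h3 : orderOf x ≠ 1 := by rwa [Ne, orderOf_eq_one_iff]
    have h4 := (h.eq_one_or_self_of_dvd _ h1).resolve_left h3
    have h5 := (hp.eq_one_or_self_of_dvd _ h2).resolve_left h3
    rw [← h4, h5]
  · exfalso
    have h1 : Group.IsSolvable (A ⧸ K) := Group.isSolvable_of_comm hc'
    have h2 := Group.IsSolvable.commutator_lt_top_of_nontrivial (A ⧸ K)
    rw [h] at h2
    exact lt_irrefl _ h2

end sol

end Pool.Agent.W_MP_84bb83_al
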